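import Pool.Agent.Y581.ET.Der

/-! # A 1-restricted system generates only finitely many words `a^n b^n c^n` -/

set_option autoImplicit false

namespace Pool.Agent.Y581.ET

open Relation

variable {A : Type}

/-- The word `a^n b^n c^n`. -/
def tri (a b c : A) (n : ℕ) : List A :=
  List.replicate n a ++ List.replicate n b ++ List.replicate n c

section

variable {a b c : A}

theorem tri_len (n : ℕ) : (tri a b c n).length = 3 * n := by
  simp [tri]; ring

open Classical in
theorem tri_count (hab : a ≠ b) (hac : a ≠ c) (hbc : b ≠ c) (n : ℕ) :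
    ∀ x : A, x = a ∨ x = b ∨ x = c → (tri a b c n).count x = n := by
  intro x hx
  rcases hx with rfl | rfl | rfl
  · simp [tri, List.count_append, List.count_replicate, hab.symm, hac.symm]
  · simp [tri, List.count_append, List.count_replicate, hab, hbc.symm]
  · simp [tri, List.count_append, List.count_replicate, hac, hbc]

theorem tri_mem {n : ℕ} {x : A} (h : x ∈ tri a b c n) : x = a ∨ x = b ∨ x = c := by
  simp only [tri, List.mem_append, List.mem_replicate] at h
  tauto

/-- The order of the letters. -/
theorem tri_order_ab (hab : a ≠ b) (hac : a ≠ c) {n : ℕ} {x y : List A}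
    (h : x ++ y = tri a b c n) (hy : a ∈ y) : b ∉ x := by
  intro hx
  obtain ⟨x1, x2, rfl⟩ := List.append_of_mem hx
  obtain ⟨y1, y2, rfl⟩ := List.append_of_mem hy
  -- the part before b has length at least n
  have hlen : n ≤ x1.length := by
    by_contra hlt
    push Not at hlt
    have h1 : (tri a b c n)[x1.length]? = some b := by
      rw [← h]
      simp
    have h2 : (tri a b c n)[x1.length]? = some a := by
      rw [tri, List.append_assoc, List.getElem?_append_left (by simpa using hlt)]
      simp [hlt]
    rw [h1] at h2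
    exact hab (Option.some.inj h2).symm
  have hdrop : (tri a b c n).drop n = List.replicate n b ++ List.replicate n c := by
    rw [tri, List.append_assoc, List.drop_left' (by simp)]
  have hmem : a ∈ (tri a b c n).drop n := by
    rw [← h]
    have : (x1 ++ b :: x2 ++ (y1 ++ a :: y2)) = x1 ++ (b :: x2 ++ (y1 ++ a :: y2)) := by simp
    rw [this, List.drop_append]
    rw [List.mem_append]
    right
    have hz : n - x1.length = 0 := by omega
    rw [hz]
    simp
  rw [hdrop, List.mem_append] at hmem
  rcases hmem with h' | h'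
  · exact hab (List.eq_of_mem_replicate h')
  · exact hac (List.eq_of_mem_replicate h')

theorem tri_order_bc (hac : a ≠ c) (hbc : b ≠ c) {n : ℕ} {x y : List A}
    (h : x ++ y = tri a b c n) (hx : c ∈ x) : b ∉ y := by
  intro hy
  have hrev : y.reverse ++ x.reverse = tri c b a n := by
    rw [← List.reverse_append, h]
    simp [tri]
  exact tri_order_ab hbc.symm hac.symm hrev (by simpa using hx) (by simpa using hy)

end

/-- A word lacking one of the three letters. -/
def NC (a b c : A) (u : List A) : Prop := a ∉ u ∨ b ∉ u ∨ c ∉ u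

theorem not_NC {a b c : A} {u : List A} (h : ¬ NC a b c u) : a ∈ u ∧ b ∈ u ∧ c ∈ u := by
  unfold NC at h; tauto

open Classical in
/-- The letters from which a terminal word can be derived along `w`. -/
noncomputable def Val (G : ET0L A) (w : List (A → Set (List A))) : Finset A :=
  G.alph.filter fun x => ∃ V, Der w [x] V ∧ ∀ z ∈ V, z ∈ G.term

theorem mem_Val {G : ET0L A} {w : List (A → Set (List A))} {x : A} :
    x ∈ Val G w ↔ x ∈ G.alph ∧ ∃ V, Der w [x] V ∧ ∀ z ∈ V, z ∈ G.term := by
  simp [Val]

section

variable {G : ET0L A} {a b c : A}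

theorem der_skip {t : A → Set (List A)} {w : List (A → Set (List A))} {x : A} {u : List A}
    (ht : t x = {[x]}) (h : Der (t :: w) [x] u) : Der w [x] u := by
  cases h with
  | cons s d =>
    have := subst_single.1 s
    rw [ht, Set.mem_singleton_iff] at this
    rw [this] at d
    exact d

theorem der_keep {t : A → Set (List A)} {w : List (A → Set (List A))} {x : A} {u : List A}
    (ht : t x = {[x]}) (h : Der w [x] u) : Der (t :: w) [x] u :=
  Der.cons (subst_single.2 (by rw [ht]; rfl)) h

open Classical in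
/-- Deleting a table that kills no valid letter does not decrease `n`. -/
theorem deletion (hab : a ≠ b) (hac : a ≠ c) (hbc : b ≠ c)
    (hL : G.lang ⊆ Set.range (tri a b c))
    {t : A → Set (List A)} (ht : t ∈ G.tables) {y : A}
    (hy : ∀ x ∈ G.alph, x ≠ y → t x = {[x]})
    {s : List (A → Set (List A))} (hs : ∀ t' ∈ s, t' ∈ G.tables)
    (hval : Val G (t :: s) ⊆ Val G s) {l : List (A × List A)} {n : ℕ}
    (hreach : ReflTransGen G.Step G.start (l.map Prod.fst))
    (hl : ∀ q ∈ l, Der (t :: s) [q.1] q.2) (hn : l.flatMap Prod.snd = tri a b c n)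
    (hnc : ∀ q ∈ l, NC a b c q.2) (hin : tri a b c n ∈ G.lang) :
    ∃ n', n ≤ n' ∧ Der s (l.map Prod.fst) (tri a b c n') := by
  have halph : ∀ q ∈ l, q.1 ∈ G.alph := fun q hq =>
    G.reach_mem hreach _ (List.mem_map_of_mem hq)
  have hts : ∀ t' ∈ t :: s, t' ∈ G.tables := by
    intro t' ht'
    rcases List.mem_cons.1 ht' with rfl | ht'
    · exact ht
    · exact hs t' ht'
  have hterm : ∀ q ∈ l, ∀ z ∈ q.2, z ∈ G.term := by
    intro q hq z hz
    apply hin.1
    rw [← hn]
    exact List.mem_flatMap.2 ⟨q, hq, hz⟩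
  by_cases hyl : ∀ q ∈ l, q.1 ≠ y
  · refine ⟨n, le_rfl, ?_⟩
    rw [← hn]
    exact der_of_list l fun q hq => der_skip (hy _ (halph q hq) (hyl q hq)) (hl q hq)
  push Not at hyl
  obtain ⟨q1, hq1, hq1y⟩ := hyl
  -- a terminal word from y
  have hyV : y ∈ Val G (t :: s) :=
    mem_Val.2 ⟨hq1y ▸ halph q1 hq1, q1.2, hq1y ▸ hl q1 hq1, hterm q1 hq1⟩
  obtain ⟨_, β, hβ, hβt⟩ := mem_Val.1 (hval hyV)
  -- the letter missing in q1.2 is missing in all words from y
  have hcount := tri_count hab hac hbc
  obtain ⟨σ, hσ, hσ1⟩ : ∃ σ, (σ = a ∨ σ = b ∨ σ = c) ∧ σ ∉ q1.2 := by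
    rcases hnc q1 hq1 with h | h | h
    · exact ⟨a, Or.inl rfl, h⟩
    · exact ⟨b, Or.inr (Or.inl rfl), h⟩
    · exact ⟨c, Or.inr (Or.inr rfl), h⟩
  have hall : ∀ q2 ∈ l, q2.1 = y → q2.2.count σ = 0 := by
    intro q2 hq2 hq2y
    obtain ⟨τ, hτ, hτ2⟩ : ∃ τ, (τ = a ∨ τ = b ∨ τ = c) ∧ τ ∉ q2.2 := by
      rcases hnc q2 hq2 with h | h | h
      · exact ⟨a, Or.inl rfl, h⟩
      · exact ⟨b, Or.inr (Or.inl rfl), h⟩
      · exact ⟨c, Or.inr (Or.inr rfl), h⟩
    obtain ⟨m1, m2, hm⟩ := List.append_of_mem hq1
    -- replace q1.2 by q2.2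
    have hd : Der (t :: s) (l.map Prod.fst) ((m1 ++ (q1.1, q2.2) :: m2).flatMap Prod.snd) := by
      have := der_of_list (w := t :: s) (m1 ++ (q1.1, q2.2) :: m2) (by
        intro q hq
        rcases List.mem_append.1 hq with hq | hq
        · exact hl q (by rw [hm]; exact List.mem_append_left _ hq)
        · rcases List.mem_cons.1 hq with rfl | hq
          · rw [hq1y, ← hq2y]; exact hl q2 hq2
          · exact hl q (by rw [hm]; exact List.mem_append_right _ (List.mem_cons_of_mem _ hq)))
      rw [hm]
      convert this using 1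
      simp
    have hin2 : (m1 ++ (q1.1, q2.2) :: m2).flatMap Prod.snd ∈ G.lang := by
      refine ⟨?_, hreach.trans (hd.reach hts)⟩
      intro z hz
      rw [List.flatMap_append, List.flatMap_cons] at hz
      rcases List.mem_append.1 hz with hz | hz
      · obtain ⟨q, hq, hz⟩ := List.mem_flatMap.1 hz
        exact hterm q (by rw [hm]; exact List.mem_append_left _ hq) z hz
      · rcases List.mem_append.1 hz with hz | hz
        · exact hterm q2 hq2 z hz
        · obtain ⟨q, hq, hz⟩ := List.mem_flatMap.1 hz
          exact hterm q (by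
            rw [hm]; exact List.mem_append_right _ (List.mem_cons_of_mem _ hq)) z hz
    obtain ⟨k, hk⟩ := hL hin2
    have hc : ∀ x : A, (x = a ∨ x = b ∨ x = c) → k + q1.2.count x = n + q2.2.count x := by
      intro x hx
      have e1 := hcount k x hx
      have e2 := hcount n x hx
      rw [hk] at e1
      rw [← hn, hm] at e2
      rw [List.flatMap_append, List.flatMap_cons, List.count_append, List.count_append] at e1 e2
      simp only at e1
      omega
    have h1 := hc σ hσ
    have h2 := hc τ hτ
    rw [List.count_eq_zero_of_not_mem hσ1] at h1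
    rw [List.count_eq_zero_of_not_mem hτ2] at h2
    omega
  -- the new word
  let l' : List (A × List A) := l.map fun q => if q.1 = y then (y, β) else q
  have hfst : l'.map Prod.fst = l.map Prod.fst := by
    simp only [l', List.map_map]
    apply List.map_congr_left
    intro q _
    by_cases h : q.1 = y
    · simp [h]
    · simp [h]
  have hd : Der s (l.map Prod.fst) (l'.flatMap Prod.snd) := by
    rw [← hfst]
    refine der_of_list l' ?_
    intro q hq
    obtain ⟨q0, hq0, rfl⟩ := List.mem_map.1 hq
    by_cases h : q0.1 = y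
    · rw [if_pos h]; exact hβ
    · rw [if_neg h]; exact der_skip (hy _ (halph q0 hq0) h) (hl q0 hq0)
  have hin2 : l'.flatMap Prod.snd ∈ G.lang := by
    refine ⟨?_, hreach.trans (hd.reach hs)⟩
    intro z hz
    obtain ⟨q, hq, hz⟩ := List.mem_flatMap.1 hz
    obtain ⟨q0, hq0, rfl⟩ := List.mem_map.1 hq
    by_cases h : q0.1 = y
    · rw [if_pos h] at hz; exact hβt z hz
    · rw [if_neg h] at hz; exact hterm q0 hq0 z hz
  obtain ⟨k, hk⟩ := hL hin2
  refine ⟨k, ?_, hk ▸ hd⟩
  have e1 := hcount k σ hσ
  have e2 := hcount n σ hσ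
  rw [hk] at e1
  rw [← hn] at e2
  rw [← e1, ← e2]
  clear e1 e2 hk hin2 hd hfst hq1 hreach hn hin
  have : ∀ m : List (A × List A), (∀ q ∈ m, q ∈ l) → List.count σ (m.flatMap Prod.snd) ≤
      List.count σ ((m.map fun q => if q.1 = y then (y, β) else q).flatMap Prod.snd) := by
    intro m
    induction m with
    | nil => intro _; simp
    | cons q m ih =>
      intro hm
      rw [List.flatMap_cons, List.map_cons, List.flatMap_cons, List.count_append,
        List.count_append]
      refine Nat.add_le_add ?_ (ih fun q hq => hm q (List.mem_cons_of_mem _ hq))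
      by_cases h : q.1 = y
      · rw [hall q (hm q (by simp)) h]; exact Nat.zero_le _
      · rw [if_neg h]
  exact this l fun q hq => hq

theorem restricted_one (hG : G.Restricted 1) {t : A → Set (List A)} (ht : t ∈ G.tables) :
    ∃ y, ∀ x ∈ G.alph, x ≠ y → t x = {[x]} := by
  have h := hG t ht
  have hfin : {c : A | c ∈ G.alph ∧ t c ≠ {[c]}}.Finite :=
    G.alph.finite_toSet.subset fun c hc => hc.1
  rw [Set.ncard_le_one hfin] at h
  by_cases hex : ∃ y, y ∈ G.alph ∧ t y ≠ {[y]}
  · obtain ⟨y, hy⟩ := hex
    refine ⟨y, fun x hx hxy => ?_⟩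
    by_contra hne
    exact hxy (h x ⟨hx, hne⟩ y hy)
  · push Not at hex
    obtain ⟨z, hz⟩ := List.exists_mem_of_ne_nil _ G.start_ne
    exact ⟨z, fun x hx _ => hex x hx⟩

variable (hab : a ≠ b) (hac : a ≠ c) (hbc : b ≠ c) (hL : G.lang ⊆ Set.range (tri a b c))
  (hG : G.Restricted 1) {n N : ℕ}
  (hmin : ∀ w : List (A → Set (List A)), (∀ t ∈ w, t ∈ G.tables) → w.length < N →
    ∀ n'' : ℕ, n ≤ n'' → ¬ Der w G.start (tri a b c n''))

include hab hac hbc hL hG hmin in
/-- Without central letters the rest of the control word is short. -/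
theorem nc_bound {n' : ℕ} (hn' : n ≤ n') (hin : tri a b c n' ∈ G.lang) :
    ∀ (s p : List (A → Set (List A))) (l : List (A × List A)),
    (∀ t ∈ s, t ∈ G.tables) → (∀ t ∈ p, t ∈ G.tables) → p.length + s.length = N →
    Der p G.start (l.map Prod.fst) → (∀ q ∈ l, Der s [q.1] q.2) →
    l.flatMap Prod.snd = tri a b c n' → (∀ q ∈ l, NC a b c q.2) →
    s.length ≤ (Val G s).card
  | [], _, _, _, _, _, _, _, _, _ => Nat.zero_le _
  | t :: s, p, l, hs, hp, hN, hd, hl, hn, hnc => by
    have ht := hs t (by simp)
    have hs' : ∀ t' ∈ s, t' ∈ G.tables := fun t' ht' => hs t' (List.mem_cons_of_mem _ ht')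
    obtain ⟨y, hy⟩ := restricted_one hG ht
    have hnv : ¬ Val G (t :: s) ⊆ Val G s := by
      intro hval
      obtain ⟨n'', hn'', hdd⟩ := deletion hab hac hbc hL ht hy hs' hval (hd.reach hp) hl hn hnc hin
      refine hmin (p ++ s) ?_ ?_ n'' (hn'.trans hn'') (hd.comp hdd)
      · intro t' ht'
        rcases List.mem_append.1 ht' with h | h
        · exact hp t' h
        · exact hs' t' h
      · rw [List.length_append]
        rw [List.length_cons] at hN
        omega
    have hsub : Val G s ⊂ Val G (t :: s) := by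
      refine ⟨?_, hnv⟩
      rw [Finset.not_subset] at hnv
      obtain ⟨x0, hx0, hx0'⟩ := hnv
      intro x hx
      by_cases hxy : x = y
      · have : x0 = y := by
          by_contra hne
          apply hx0'
          obtain ⟨h1, V, h2, h3⟩ := mem_Val.1 hx0
          exact mem_Val.2 ⟨h1, V, der_skip (hy x0 h1 hne) h2, h3⟩
        rw [hxy, ← this]; exact hx0
      · obtain ⟨h1, V, h2, h3⟩ := mem_Val.1 hx
        exact mem_Val.2 ⟨h1, V, der_keep (hy x h1 hxy) h2, h3⟩
    have hcard := Finset.card_lt_card hsub
    obtain ⟨l', c1, c2, c3⟩ := children l hl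
    have ih := nc_bound hn' hin s (p ++ [t]) l' hs' (by
      intro t' ht'
      rcases List.mem_append.1 ht' with h | h
      · exact hp t' h
      · rw [List.mem_singleton.1 h]; exact ht) (by
      rw [List.length_append, List.length_singleton]
      rw [List.length_cons] at hN
      omega) (hd.comp (Der.cons c1 (Der.nil _))) (fun q hq => (c3 q hq).1) (by rw [c2, hn]) (by
      intro q hq
      obtain ⟨q0, hq0, hsubq⟩ := (c3 q hq).2
      rcases hnc q0 hq0 with h | h | h
      · exact Or.inl fun hh => h (hsubq _ hh)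
      · exact Or.inr (Or.inl fun hh => h (hsubq _ hh))
      · exact Or.inr (Or.inr fun hh => h (hsubq _ hh)))
    rw [List.length_cons]
    omega

include hab hac hbc hL hG hmin in
/-- With a central letter `n'` is bounded. -/
theorem central_bound {n' : ℕ} (hn' : n ≤ n') (hin : tri a b c n' ∈ G.lang) {C : ℕ}
    (hC1 : 1 ≤ C) (hC : ∀ t ∈ G.tables, ∀ c ∈ G.alph, ∀ u ∈ t c, u.length ≤ C) :
    ∀ (s p : List (A → Set (List A))) (l1 : List (A × List A)) (z : A) (u : List A)
    (l2 : List (A × List A)),
    (∀ t ∈ s, t ∈ G.tables) → (∀ t ∈ p, t ∈ G.tables) → p.length + s.length = N →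
    Der p G.start ((l1 ++ (z, u) :: l2).map Prod.fst) →
    (∀ q ∈ l1 ++ (z, u) :: l2, Der s [q.1] q.2) →
    (l1 ++ (z, u) :: l2).flatMap Prod.snd = tri a b c n' → ¬ NC a b c u →
    n' ≤ C * C ^ G.alph.card
  | [], _, _, z, u, _, _, _, _, _, hl, _, hnc => by
    exfalso
    have h0 : Der [] [z] u := hl (z, u) (by simp)
    cases h0
    obtain ⟨h1, h2, _⟩ := not_NC hnc
    rw [List.mem_singleton] at h1 h2
    exact hab (h1.trans h2.symm)
  | t :: s, p, l1, z, u, l2, hs, hp, hN, hd, hl, hn, hnc => by
    classical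
    have ht := hs t (by simp)
    have hs' : ∀ t' ∈ s, t' ∈ G.tables := fun t' ht' => hs t' (List.mem_cons_of_mem _ ht')
    obtain ⟨l1', c1, c2, c3⟩ := children l1 fun q hq => hl q (List.mem_append_left _ hq)
    obtain ⟨l2', d1, d2, d3⟩ := children l2 fun q hq =>
      hl q (List.mem_append_right _ (List.mem_cons_of_mem _ hq))
    obtain ⟨α, sα, dα⟩ : ∃ α, Subst t [z] α ∧ Der s α u := by
      have := hl (z, u) (by simp)
      cases this with
      | cons s1 d1 => exact ⟨_, s1, d1⟩
    obtain ⟨lα, e1, e2, e3⟩ := list_of_der dα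
    have hstep : Subst t ((l1 ++ (z, u) :: l2).map Prod.fst)
        ((l1' ++ lα ++ l2').map Prod.fst) := by
      rw [List.map_append, List.map_append, List.map_append, List.map_cons, ← e1,
        List.append_assoc]
      exact c1.append (Subst.append (x1 := [z]) sα d1)
    have hflat : (l1' ++ lα ++ l2').flatMap Prod.snd = tri a b c n' := by
      rw [← hn, List.flatMap_append, List.flatMap_append, c2, d2, ← e2, List.flatMap_append,
        List.flatMap_cons, List.append_assoc]
    have hall : ∀ q ∈ l1' ++ lα ++ l2', Der s [q.1] q.2 := by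
      intro q hq
      rcases List.mem_append.1 hq with hq | hq
      · rcases List.mem_append.1 hq with hq | hq
        · exact (c3 q hq).1
        · exact e3 q hq
      · exact (d3 q hq).1
    have hp' : ∀ t' ∈ p ++ [t], t' ∈ G.tables := by
      intro t' ht'
      rcases List.mem_append.1 ht' with h | h
      · exact hp t' h
      · rw [List.mem_singleton.1 h]; exact ht
    have hN' : (p ++ [t]).length + s.length = N := by
      rw [List.length_append, List.length_singleton]
      rw [List.length_cons] at hN
      omega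
    have hd' := hd.comp (Der.cons hstep (Der.nil _))
    by_cases hcen : ∃ q ∈ lα, ¬ NC a b c q.2
    · obtain ⟨⟨z', u'⟩, hq, hqc⟩ := hcen
      obtain ⟨m1, m2, rfl⟩ := List.append_of_mem hq
      have e : l1' ++ (m1 ++ (z', u') :: m2) ++ l2' = (l1' ++ m1) ++ (z', u') :: (m2 ++ l2') := by
        simp
      rw [e] at hflat hall hd'
      exact central_bound hn' hin hC1 hC s (p ++ [t]) (l1' ++ m1) z' u' (m2 ++ l2') hs' hp' hN'
        hd' hall hflat hqc
    · push Not at hcen
      have hsplit : l1.flatMap Prod.snd ++ (u ++ l2.flatMap Prod.snd) = tri a b c n' := by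
        rw [← hn, List.flatMap_append, List.flatMap_cons]
      obtain ⟨ua, ub, uc⟩ := not_NC hnc
      have hb1 : b ∉ l1.flatMap Prod.snd :=
        tri_order_ab hab hac hsplit (List.mem_append_left _ ua)
      have hb2 : b ∉ l2.flatMap Prod.snd := by
        rw [← List.append_assoc] at hsplit
        exact tri_order_bc hac hbc hsplit (List.mem_append_right _ uc)
      have hNC : ∀ q ∈ l1' ++ lα ++ l2', NC a b c q.2 := by
        intro q hq
        rcases List.mem_append.1 hq with hq | hq
        · rcases List.mem_append.1 hq with hq | hq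
          · refine Or.inr (Or.inl fun hh => hb1 ?_)
            rw [← c2]
            exact List.mem_flatMap.2 ⟨q, hq, hh⟩
          · exact hcen q hq
        · refine Or.inr (Or.inl fun hh => hb2 ?_)
          rw [← d2]
          exact List.mem_flatMap.2 ⟨q, hq, hh⟩
      have hlen := nc_bound hab hac hbc hL hG hmin hn' hin s (p ++ [t]) (l1' ++ lα ++ l2') hs' hp'
        hN' hd' hall hflat hNC
      have hcard : (Val G s).card ≤ G.alph.card := by
        unfold Val; exact Finset.card_filter_le _ _
      have hza : z ∈ G.alph := G.reach_mem (hd.reach hp) _ (by simp)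
      have hαC : α.length ≤ C := hC t ht z hza α (subst_single.1 sα)
      have hαm : ∀ x ∈ α, x ∈ G.alph := G.closed t ht z hza α (subst_single.1 sα)
      have hul := Der.length_le hC hs' hαm dα
      have hcnt : n' = u.count b := by
        have h1 := tri_count hab hac hbc n' b (Or.inr (Or.inl rfl))
        rw [← hsplit, List.count_append, List.count_append, List.count_eq_zero_of_not_mem hb1,
          List.count_eq_zero_of_not_mem hb2] at h1
        omega
      calc n' = u.count b := hcnt
        _ ≤ u.length := List.count_le_length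
        _ ≤ α.length * C ^ s.length := hul
        _ ≤ C * C ^ G.alph.card :=
          Nat.mul_le_mul hαC (Nat.pow_le_pow_right hC1 (hlen.trans hcard))

end

/-- A 1-restricted system all of whose words are of the form `a^n b^n c^n` generates only
finitely many words. -/
theorem one_restricted_finite {G : ET0L A} {a b c : A} (hab : a ≠ b) (hac : a ≠ c) (hbc : b ≠ c)
    (hG : G.Restricted 1) : G.lang ≠ Set.range (tri a b c) := by
  classical
  intro hL
  -- the bound on the lengths
  obtain ⟨C, hC1, hCs, hC⟩ : ∃ C : ℕ, 1 ≤ C ∧ G.start.length ≤ C ∧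
      ∀ t ∈ G.tables, ∀ c ∈ G.alph, ∀ u ∈ t c, u.length ≤ C := by
    have hfin : (⋃ t ∈ G.tables, ⋃ c ∈ (G.alph : Set A), List.length '' t c).Finite := by
      refine G.fin_tables.biUnion fun t ht => ?_
      refine G.alph.finite_toSet.biUnion fun c hc => ?_
      exact (G.fin_img t ht c hc).image _
    obtain ⟨M, hM⟩ := hfin.bddAbove
    refine ⟨max (max M 1) G.start.length, ?_, le_max_right _ _, fun t ht c hc u hu => ?_⟩
    · exact le_trans (le_max_right M 1) (le_max_left _ _)
    · refine le_trans (hM ?_) (le_trans (le_max_left M 1) (le_max_left _ _))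
      simp only [Set.mem_iUnion]
      exact ⟨t, ht, c, hc, u, hu, rfl⟩
  set n := C * C ^ G.alph.card + 1 with hn
  -- a shortest control word
  have hex : ∃ N : ℕ, ∃ w : List (A → Set (List A)), (∀ t ∈ w, t ∈ G.tables) ∧ w.length = N ∧
      ∃ n', n ≤ n' ∧ Der w G.start (tri a b c n') := by
    have hin : tri a b c n ∈ G.lang := by rw [hL]; exact ⟨n, rfl⟩
    obtain ⟨w, hw, hd⟩ := reach_der hin.2
    exact ⟨w.length, w, hw, rfl, n, le_rfl, hd⟩
  obtain ⟨w, hw, hwN, n', hn', hd⟩ := Nat.find_spec hex
  have hmin : ∀ w : List (A → Set (List A)), (∀ t ∈ w, t ∈ G.tables) →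
      w.length < Nat.find hex → ∀ n'' : ℕ, n ≤ n'' → ¬ Der w G.start (tri a b c n'') := by
    intro w' hw' hlt n'' hn'' hd'
    exact Nat.find_min hex hlt ⟨w', hw', rfl, n'', hn'', hd'⟩
  have hin : tri a b c n' ∈ G.lang := by rw [hL]; exact ⟨n', rfl⟩
  obtain ⟨l, hl1, hl2, hl3⟩ := list_of_der hd
  have hbound : n' ≤ C * C ^ G.alph.card := by
    by_cases hcen : ∃ q ∈ l, ¬ NC a b c q.2
    · obtain ⟨⟨z, u⟩, hq, hqc⟩ := hcen
      obtain ⟨m1, m2, rfl⟩ := List.append_of_mem hq
      exact central_bound hab hac hbc hL.le hG hmin hn' hin hC1 hC w [] m1 z u m2 hw (by simp)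
        (by simpa using hwN) (by rw [← hl1]; exact Der.nil _) hl3 hl2.symm hqc
    · push Not at hcen
      have h1 := nc_bound hab hac hbc hL.le hG hmin hn' hin w [] l hw (by simp)
        (by simpa using hwN) (by rw [← hl1]; exact Der.nil _) hl3 hl2.symm hcen
      have hcard : (Val G w).card ≤ G.alph.card := by
        unfold Val; exact Finset.card_filter_le _ _
      have h2 := Der.length_le hC hw G.start_mem hd
      rw [tri_len] at h2
      calc n' ≤ 3 * n' := by omega
        _ ≤ G.start.length * C ^ w.length := h2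
        _ ≤ C * C ^ G.alph.card :=
          Nat.mul_le_mul hCs (Nat.pow_le_pow_right hC1 (h1.trans hcard))
  omega

end Pool.Agent.Y581.ET
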