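import Pool.Agent.Y581.ET.Emb
import Pool.Agent.Y581.ET.Sep

/-! # An ET0L system for `a^n b^n c^n` -/

set_option autoImplicit false

namespace Pool.Agent.Y581.ET

open Relation

/-- growth: `A ↦ aA`, `B ↦ bB`, `C ↦ cC` with `a,b,c,A,B,C = 0,1,2,3,4,5`. -/
def gr : ℕ → List ℕ
  | 3 => [0, 3]
  | 4 => [1, 4]
  | 5 => [2, 5]
  | x => [x]

/-- end: `A, B, C ↦ ε`. -/
def fi : ℕ → List ℕ
  | 3 => []
  | 4 => []
  | 5 => []
  | x => [x]

/-- A deterministic table. -/
def det (f : ℕ → List ℕ) : ℕ → Set (List ℕ) := fun x => {f x}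

theorem det_subst {f : ℕ → List ℕ} : ∀ {x y : List ℕ}, Subst (det f) x y ↔ y = x.flatMap f
  | [], y => by
    constructor
    · intro h; rw [h.of_nil]; rfl
    · rintro rfl; exact Subst.nil
  | c :: x, y => by
    constructor
    · intro h
      cases h with
      | @cons _ _ u v hu hv =>
        rw [List.flatMap_cons, ← det_subst.1 hv, Set.mem_singleton_iff.1 hu]
    · rintro rfl
      rw [List.flatMap_cons]
      exact Subst.cons rfl (det_subst.2 rfl)

/-- The system for `a^n b^n c^n`. -/
def abc : ET0L ℕ where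
  alph := Finset.range 6
  tables := {det gr, det fi}
  fin_tables := (Set.finite_singleton _).insert _
  ne_tables := ⟨det gr, by simp⟩
  fin_img := by
    intro h hh c _
    rcases hh with rfl | rfl <;> exact Set.finite_singleton _
  ne_img := by
    intro h hh c _
    rcases hh with rfl | rfl <;> exact Set.singleton_nonempty _
  closed := by
    intro h hh c hc w hw x hx
    rw [Finset.mem_range] at hc ⊢
    rcases hh with rfl | rfl
    · rw [Set.mem_singleton_iff.1 hw] at hx
      interval_cases c <;> simp [gr] at hx <;> omega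
    · rw [Set.mem_singleton_iff.1 hw] at hx
      interval_cases c <;> simp [fi] at hx <;> omega
  start := [3, 4, 5]
  start_ne := by simp
  start_mem := by
    intro x hx
    simp only [List.mem_cons, List.not_mem_nil, or_false] at hx
    rw [Finset.mem_range]
    omega
  term := {0, 1, 2}
  term_sub := by
    intro x hx
    simp only [Finset.mem_insert, Finset.mem_singleton] at hx
    rw [Finset.mem_range]
    omega

/-- The intermediate words. -/
def mid (n : ℕ) : List ℕ :=
  List.replicate n 0 ++ [3] ++ (List.replicate n 1 ++ [4]) ++ (List.replicate n 2 ++ [5])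

theorem flat_rep (f : ℕ → List ℕ) (x : ℕ) (hx : f x = [x]) (n : ℕ) :
    (List.replicate n x).flatMap f = List.replicate n x := by
  induction n with
  | zero => rfl
  | succ n ih => rw [List.replicate_succ, List.flatMap_cons, ih, hx]; rfl

theorem rep_snoc (n : ℕ) (x : ℕ) (l : List ℕ) :
    List.replicate n x ++ x :: l = List.replicate (n + 1) x ++ l := by
  rw [List.replicate_succ', List.append_assoc]; rfl

theorem gr_mid (n : ℕ) : (mid n).flatMap gr = mid (n + 1) := by
  simp only [mid, List.flatMap_append, flat_rep gr 0 rfl, flat_rep gr 1 rfl, flat_rep gr 2 rfl,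
    List.flatMap_cons, List.flatMap_nil, gr, List.append_nil, List.replicate_succ',
    List.append_assoc, List.cons_append, List.nil_append]

theorem fi_mid (n : ℕ) : (mid n).flatMap fi = tri 0 1 2 n := by
  simp only [mid, tri, List.flatMap_append, flat_rep fi 0 rfl, flat_rep fi 1 rfl,
    flat_rep fi 2 rfl, List.flatMap_cons, List.flatMap_nil, fi, List.append_nil]

theorem gr_tri (n : ℕ) : (tri 0 1 2 n).flatMap gr = tri 0 1 2 n := by
  simp only [tri, List.flatMap_append, flat_rep gr 0 rfl, flat_rep gr 1 rfl, flat_rep gr 2 rfl]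

theorem fi_tri (n : ℕ) : (tri 0 1 2 n).flatMap fi = tri 0 1 2 n := by
  simp only [tri, List.flatMap_append, flat_rep fi 0 rfl, flat_rep fi 1 rfl, flat_rep fi 2 rfl]

theorem abc_reach {w : List ℕ} (h : ReflTransGen abc.Step abc.start w) :
    (∃ n, w = mid n) ∨ ∃ n, w = tri 0 1 2 n := by
  induction h with
  | refl => exact Or.inl ⟨0, rfl⟩
  | tail _ h2 ih =>
    obtain ⟨t, ht, hs⟩ := h2
    rcases ht with rfl | rfl
    · rw [det_subst.1 hs]
      rcases ih with ⟨n, rfl⟩ | ⟨n, rfl⟩
      · exact Or.inl ⟨n + 1, gr_mid n⟩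
      · exact Or.inr ⟨n, gr_tri n⟩
    · rw [det_subst.1 hs]
      rcases ih with ⟨n, rfl⟩ | ⟨n, rfl⟩
      · exact Or.inr ⟨n, fi_mid n⟩
      · exact Or.inr ⟨n, fi_tri n⟩

theorem abc_lang : abc.lang = Set.range (tri 0 1 2) := by
  ext w
  constructor
  · rintro ⟨h1, h2⟩
    rcases abc_reach h2 with ⟨n, rfl⟩ | ⟨n, rfl⟩
    · exfalso
      have := h1 3 (by simp [mid])
      simp [abc] at this
    · exact ⟨n, rfl⟩
  · rintro ⟨n, rfl⟩
    refine ⟨fun x hx => ?_, ?_⟩
    · have := tri_mem hx
      simp only [abc, Finset.mem_insert, Finset.mem_singleton]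
      exact this
    · have hm : ∀ n, ReflTransGen abc.Step abc.start (mid n) := by
        intro n
        induction n with
        | zero => exact ReflTransGen.refl
        | succ n ih =>
          exact ih.tail ⟨det gr, Or.inl rfl, det_subst.2 (gr_mid n).symm⟩
      exact (hm n).tail ⟨det fi, Or.inr rfl, det_subst.2 (fi_mid n).symm⟩

theorem map_tri {A B : Type} (f : A → B) (a b c : A) (n : ℕ) :
    (tri a b c n).map f = tri (f a) (f b) (f c) n := by
  simp [tri]

theorem abc_all {A : Type} (f : ℕ → A) (hf : Function.Injective f) :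
    Set.range (tri (f 0) (f 1) (f 2)) ∈ FamAll A := by
  refine ⟨mapSys abc f hf.injOn, ?_⟩
  rw [mapSys_lang, abc_lang, ← Set.range_comp]
  congr 1
  funext n
  exact map_tri f 0 1 2 n

/-- The threshold is 2. -/
theorem threshold (A : Type) [Infinite A] :
    IsLeast {l : ℕ | 1 ≤ l ∧ ∀ k, l ≤ k → Fam A k = Fam A (k + 1)} 2 := by
  refine ⟨⟨by norm_num, fun k hk => ?_⟩, ?_⟩
  · rw [fam_eq_all hk, fam_eq_all (by omega)]
  · rintro l ⟨h1, h2⟩
    by_contra hlt
    have hl : l = 1 := by omega
    subst hl
    have h12 := h2 1 le_rfl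
    let f := Infinite.natEmbedding A
    have hm : Set.range (tri (f 0) (f 1) (f 2)) ∈ Fam A 1 := by
      rw [h12]
      exact famAll_sub (abc_all f f.injective)
    obtain ⟨G, hG, hL⟩ := hm
    have hne : ∀ i j : ℕ, i ≠ j → f i ≠ f j := fun i j h h' => h (f.injective h')
    exact one_restricted_finite (hne 0 1 (by norm_num)) (hne 0 2 (by norm_num))
      (hne 1 2 (by norm_num)) hG hL

end Pool.Agent.Y581.ET
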