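import Pool.Agent.Y581.ET.Defs

/-! # Basic facts on substitutions, and transport along an injection of the letters -/

set_option autoImplicit false

namespace Pool.Agent.Y581.ET

open Relation

variable {A B : Type}

theorem Subst.mem_closed {h : A → Set (List A)} {P : A → Prop}
    (hc : ∀ c, P c → ∀ w ∈ h c, ∀ x ∈ w, P x) {x y : List A} (hs : Subst h x y)
    (hx : ∀ c ∈ x, P c) : ∀ c ∈ y, P c := by
  induction hs with
  | nil => intro c hc'; simp at hc'
  | @cons c x u v hu _ ih =>
    intro z hz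
    rcases List.mem_append.1 hz with hz | hz
    · exact hc c (hx c (List.mem_cons_self ..)) u hu z hz
    · exact ih (fun d hd => hx d (List.mem_cons_of_mem _ hd)) z hz

theorem ET0L.step_mem (G : ET0L A) {x y : List A} (h : G.Step x y) (hx : ∀ c ∈ x, c ∈ G.alph) :
    ∀ c ∈ y, c ∈ G.alph := by
  obtain ⟨t, ht, hs⟩ := h
  exact hs.mem_closed (P := fun c => c ∈ G.alph) (fun c hc w hw z hz => G.closed t ht c hc w hw z hz)
    hx

theorem ET0L.reach_mem (G : ET0L A) {y : List A} (h : ReflTransGen G.Step G.start y) :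
    ∀ c ∈ y, c ∈ G.alph := by
  induction h with
  | refl => exact G.start_mem
  | tail _ h2 ih => exact G.step_mem h2 ih

/-! ## transport -/

/-- The image of a table. -/
def mapTab (S : Finset A) (f : A → B) (t : A → Set (List A)) : B → Set (List B) :=
  fun c => {w' | ∃ b ∈ S, f b = c ∧ ∃ w ∈ t b, w' = w.map f}

theorem mapTab_subst {S : Finset A} {f : A → B} {t : A → Set (List A)} {x y : List A}
    (hs : Subst t x y) (hx : ∀ c ∈ x, c ∈ S) : Subst (mapTab S f t) (x.map f) (y.map f) := by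
  induction hs with
  | nil => exact Subst.nil
  | @cons c x u v hu _ ih =>
    rw [List.map_cons, List.map_append]
    refine Subst.cons ⟨c, hx c (List.mem_cons_self ..), rfl, u, hu, rfl⟩ ?_
    exact ih fun d hd => hx d (List.mem_cons_of_mem _ hd)

theorem mapTab_subst_inv {S : Finset A} {f : A → B} (hf : Set.InjOn f (S : Set A))
    {t : A → Set (List A)} : ∀ {x : List A} {y' : List B}, (∀ c ∈ x, c ∈ S) →
    Subst (mapTab S f t) (x.map f) y' → ∃ y, y' = y.map f ∧ Subst t x y
  | [], y', _, hs => by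
    cases hs
    exact ⟨[], rfl, Subst.nil⟩
  | c :: x, y', hx, hs => by
    rw [List.map_cons] at hs
    cases hs with
    | @cons _ _ u v hu hv =>
      obtain ⟨b, hb, hbc, w, hw, rfl⟩ := hu
      have : b = c := hf hb (hx c (List.mem_cons_self ..)) hbc
      subst this
      obtain ⟨y, rfl, hy⟩ := mapTab_subst_inv hf (fun d hd => hx d (List.mem_cons_of_mem _ hd)) hv
      exact ⟨w ++ y, by rw [List.map_append], Subst.cons hw hy⟩

open Classical in
/-- The image of a system along a map of letters. -/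
noncomputable def mapSys (G : ET0L A) (f : A → B) (hf : Set.InjOn f (G.alph : Set A)) : ET0L B where
  alph := G.alph.image f
  tables := mapTab G.alph f '' G.tables
  fin_tables := G.fin_tables.image _
  ne_tables := G.ne_tables.image _
  fin_img := by
    rintro _ ⟨t, ht, rfl⟩ c hc
    obtain ⟨b, hb, rfl⟩ := Finset.mem_image.1 hc
    refine ((G.fin_img t ht b hb).image (List.map f)).subset ?_
    rintro _ ⟨b', hb', hbb, w, hw, rfl⟩
    have : b' = b := hf hb' hb hbb
    subst this
    exact ⟨w, hw, rfl⟩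
  ne_img := by
    rintro _ ⟨t, ht, rfl⟩ c hc
    obtain ⟨b, hb, rfl⟩ := Finset.mem_image.1 hc
    obtain ⟨w, hw⟩ := G.ne_img t ht b hb
    exact ⟨w.map f, b, hb, rfl, w, hw, rfl⟩
  closed := by
    rintro _ ⟨t, ht, rfl⟩ c hc w' ⟨b, hb, hbc, w, hw, rfl⟩ x hx
    obtain ⟨z, hz, rfl⟩ := List.mem_map.1 hx
    exact Finset.mem_image_of_mem f (G.closed t ht b hb w hw z hz)
  start := G.start.map f
  start_ne := by simpa using G.start_ne
  start_mem := by
    intro x hx
    obtain ⟨z, hz, rfl⟩ := List.mem_map.1 hx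
    exact Finset.mem_image_of_mem f (G.start_mem z hz)
  term := G.term.image f
  term_sub := Finset.image_subset_image G.term_sub

theorem mapSys_reach (G : ET0L A) (f : A → B) (hf : Set.InjOn f (G.alph : Set A)) {y : List A}
    (h : ReflTransGen G.Step G.start y) :
    ReflTransGen (mapSys G f hf).Step (mapSys G f hf).start (y.map f) := by
  induction h with
  | refl => exact ReflTransGen.refl
  | @tail b c h1 h2 ih =>
    refine ih.tail ?_
    obtain ⟨t, ht, hs⟩ := h2
    exact ⟨_, ⟨t, ht, rfl⟩, mapTab_subst hs (G.reach_mem h1)⟩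

theorem mapSys_reach_inv (G : ET0L A) (f : A → B) (hf : Set.InjOn f (G.alph : Set A))
    {y' : List B} (h : ReflTransGen (mapSys G f hf).Step (mapSys G f hf).start y') :
    ∃ y, y' = y.map f ∧ ReflTransGen G.Step G.start y := by
  induction h with
  | refl => exact ⟨G.start, rfl, ReflTransGen.refl⟩
  | @tail b c h1 h2 ih =>
    obtain ⟨y, rfl, hy⟩ := ih
    obtain ⟨_, ⟨t, ht, rfl⟩, hs⟩ := h2
    obtain ⟨z, rfl, hz⟩ := mapTab_subst_inv hf (G.reach_mem hy) hs
    exact ⟨z, rfl, hy.tail ⟨t, ht, hz⟩⟩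

theorem mapSys_lang (G : ET0L A) (f : A → B) (hf : Set.InjOn f (G.alph : Set A)) :
    (mapSys G f hf).lang = List.map f '' G.lang := by
  classical
  ext w'
  constructor
  · rintro ⟨h1, h2⟩
    obtain ⟨w, rfl, hw⟩ := mapSys_reach_inv G f hf h2
    refine ⟨w, ⟨fun x hx => ?_, hw⟩, rfl⟩
    have := h1 (f x) (List.mem_map_of_mem hx)
    obtain ⟨z, hz, hzx⟩ := Finset.mem_image.1 this
    have : z = x := hf (G.term_sub hz) (G.reach_mem hw x hx) hzx
    exact this ▸ hz
  · rintro ⟨w, ⟨h1, h2⟩, rfl⟩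
    refine ⟨fun x hx => ?_, mapSys_reach G f hf h2⟩
    obtain ⟨z, hz, rfl⟩ := List.mem_map.1 hx
    exact Finset.mem_image_of_mem f (h1 z hz)

theorem mapSys_restricted (G : ET0L A) (f : A → B) (hf : Set.InjOn f (G.alph : Set A)) {k : ℕ}
    (hG : G.Restricted k) : (mapSys G f hf).Restricted k := by
  classical
  rintro _ ⟨t, ht, rfl⟩
  have hfin : {c : A | c ∈ G.alph ∧ t c ≠ {[c]}}.Finite :=
    G.alph.finite_toSet.subset fun c hc => hc.1
  refine le_trans (Set.ncard_le_ncard (t := f '' {c : A | c ∈ G.alph ∧ t c ≠ {[c]}}) ?_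
    (hfin.image f)) (le_trans (Set.ncard_image_le hfin) (hG t ht))
  rintro c ⟨hc, hne⟩
  obtain ⟨b, hb, rfl⟩ := Finset.mem_image.1 hc
  refine ⟨b, ⟨hb, fun hbb => hne ?_⟩, rfl⟩
  ext w'
  constructor
  · rintro ⟨b', hb', hbb', w, hw, rfl⟩
    have : b' = b := hf hb' hb hbb'
    subst this
    rw [hbb] at hw
    rw [Set.mem_singleton_iff.1 hw]
    rfl
  · intro hw'
    rw [Set.mem_singleton_iff.1 hw']
    exact ⟨b, hb, rfl, [b], by rw [hbb]; rfl, rfl⟩

end Pool.Agent.Y581.ET
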