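import Pool.Agent.Y581.ET.Sim

/-! # The simulating 2-restricted system: completeness and assembly -/

set_option autoImplicit false

namespace Pool.Agent.Y581.ET

open Relation

variable {A : Type} (G : ET0L A)

open Classical in
/-- The alphabet of the simulating system. -/
noncomputable def salph : Finset (Lt A) :=
  G.alph.image Lt.m ∪ G.alph.image Lt.p ∪ G.alph.image Lt.e ∪ G.alph.image Lt.q ∪
    (clk G).toFinset ∪ {Lt.F}

variable {G} in
theorem mem_salph {c : Lt A} : c ∈ salph G ↔ (∃ x ∈ G.alph, c = Lt.m x) ∨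
    (∃ x ∈ G.alph, c = Lt.p x) ∨ (∃ x ∈ G.alph, c = Lt.e x) ∨ (∃ x ∈ G.alph, c = Lt.q x) ∨
    c ∈ clk G ∨ c = Lt.F := by
  simp only [salph, Finset.mem_union, Finset.mem_image, List.mem_toFinset,
    Finset.mem_singleton, eq_comm (b := c), or_assoc]

/-- The tables of the simulating system. -/
def stab : Set (Lt A → Set (List (Lt A))) := {t | ∃ y α g, Tb G y α g ∧ t = tab y α g}

theorem stab_finite : (stab G).Finite := by
  have h1 : ((fun q : (A → Set (List A)) × A =>
      tab (Lt.m q.2) (Tim q.1 q.2 (bar G (Lt.a q.1))) (Lt.e q.2)) ''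
      (G.tables ×ˢ (G.alph : Set A))).Finite :=
    (G.fin_tables.prod G.alph.finite_toSet).image _
  have h2 : ((fun x : A => tab (Lt.p x) {Lt.m x :: bar G Lt.b} (Lt.q x)) ''
      (G.alph : Set A)).Finite := G.alph.finite_toSet.image _
  have h3 : ((fun x : A => tab (Lt.e x) {[]} (Lt.m x)) '' (G.alph : Set A)).Finite :=
    G.alph.finite_toSet.image _
  have h4 : ((fun x : A => tab (Lt.q x) {[]} (Lt.p x)) '' (G.alph : Set A)).Finite :=
    G.alph.finite_toSet.image _
  have h5 : ((fun h : A → Set (List A) => tab Lt.b {Lt.a h :: es G} (Lt.a h)) ''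
      G.tables).Finite := G.fin_tables.image _
  have h6 : ((fun h : A → Set (List A) => tab (Lt.a h) {Lt.b :: qs G} Lt.b) ''
      G.tables).Finite := G.fin_tables.image _
  have h7 : ((fun φ : Lt A => tab φ {[]} Lt.d) '' {φ | φ ∈ clk G}).Finite :=
    (List.finite_toSet (clk G)).image _
  refine ((((((h1.union h2).union h3).union h4).union h5).union h6).union h7 |>.union
    (Set.finite_singleton (tab Lt.d {Lt.b :: qs G} Lt.b))).subset ?_
  rintro t ⟨y, α, g, ht, rfl⟩
  cases ht with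
  | @T h x hh hx =>
    exact Or.inl (Or.inl (Or.inl (Or.inl (Or.inl (Or.inl (Or.inl ⟨(h, x), ⟨hh, hx⟩, rfl⟩))))))
  | @R x hx => exact Or.inl (Or.inl (Or.inl (Or.inl (Or.inl (Or.inl (Or.inr ⟨x, hx, rfl⟩))))))
  | @K x hx => exact Or.inl (Or.inl (Or.inl (Or.inl (Or.inl (Or.inr ⟨x, hx, rfl⟩)))))
  | @K' x hx => exact Or.inl (Or.inl (Or.inl (Or.inl (Or.inr ⟨x, hx, rfl⟩))))
  | @S1 h hh => exact Or.inl (Or.inl (Or.inl (Or.inr ⟨h, hh, rfl⟩)))
  | @S2 h hh => exact Or.inl (Or.inl (Or.inr ⟨h, hh, rfl⟩))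
  | S3 => exact Or.inr rfl
  | Z hφ _ => exact Or.inl (Or.inr ⟨_, hφ, rfl⟩)

variable {G}

theorem Tb.fin {y g : Lt A} {α : Set (List (Lt A))} (h : Tb G y α g) : α.Finite := by
  cases h with
  | @T h x hh hx =>
    refine ((G.fin_img h hh x hx).image (fun u => u.map Lt.p ++ bar G (Lt.a h))).subset ?_
    rintro _ ⟨u, hu, rfl⟩
    exact ⟨u, hu, rfl⟩
  | _ => exact Set.finite_singleton _

theorem Tb.ne {y g : Lt A} {α : Set (List (Lt A))} (h : Tb G y α g) : α.Nonempty := by
  cases h with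
  | @T h x hh hx =>
    obtain ⟨u, hu⟩ := G.ne_img h hh x hx
    exact ⟨_, u, hu, rfl⟩
  | _ => exact Set.singleton_nonempty _

theorem Tb.cl {y g : Lt A} {α : Set (List (Lt A))} (h : Tb G y α g) :
    ∀ w ∈ α, ∀ z ∈ w, z ∈ salph G := by
  intro w hw z hz
  rw [mem_salph]
  cases h with
  | @T h x hh hx =>
    obtain ⟨u, hu, rfl⟩ := hw
    rcases List.mem_append.1 hz with hz | hz
    · obtain ⟨c, hc, rfl⟩ := List.mem_map.1 hz
      exact Or.inr (Or.inl ⟨c, G.closed h hh x hx u hu c hc, rfl⟩)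
    · exact Or.inr (Or.inr (Or.inr (Or.inr (Or.inl (mem_bar.1 hz).1))))
  | @R x hx =>
    rw [Set.mem_singleton_iff.1 hw] at hz
    rcases List.mem_cons.1 hz with rfl | hz
    · exact Or.inl ⟨x, hx, rfl⟩
    · exact Or.inr (Or.inr (Or.inr (Or.inr (Or.inl (mem_bar.1 hz).1))))
  | K _ => rw [Set.mem_singleton_iff.1 hw] at hz; simp at hz
  | K' _ => rw [Set.mem_singleton_iff.1 hw] at hz; simp at hz
  | @S1 h hh =>
    rw [Set.mem_singleton_iff.1 hw] at hz
    rcases List.mem_cons.1 hz with rfl | hz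
    · exact Or.inr (Or.inr (Or.inr (Or.inr (Or.inl (a_clk.2 hh)))))
    · exact Or.inr (Or.inr (Or.inl (mem_es.1 hz)))
  | @S2 h hh =>
    rw [Set.mem_singleton_iff.1 hw] at hz
    rcases List.mem_cons.1 hz with rfl | hz
    · exact Or.inr (Or.inr (Or.inr (Or.inr (Or.inl b_clk))))
    · exact Or.inr (Or.inr (Or.inr (Or.inl (mem_qs.1 hz))))
  | S3 =>
    rw [Set.mem_singleton_iff.1 hw] at hz
    rcases List.mem_cons.1 hz with rfl | hz
    · exact Or.inr (Or.inr (Or.inr (Or.inr (Or.inl b_clk))))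
    · exact Or.inr (Or.inr (Or.inr (Or.inl (mem_qs.1 hz))))
  | Z _ _ => rw [Set.mem_singleton_iff.1 hw] at hz; simp at hz

variable (G)

open Classical in
/-- The simulating system. -/
noncomputable def sim : ET0L (Lt A) where
  alph := salph G
  tables := stab G
  fin_tables := stab_finite G
  ne_tables := ⟨_, _, _, _, Tb.S3, rfl⟩
  fin_img := by
    rintro _ ⟨y, α, g, ht, rfl⟩ c _
    unfold tab
    split_ifs
    · exact Set.finite_singleton _
    · exact ht.fin
    · exact Set.finite_singleton _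
  ne_img := by
    rintro _ ⟨y, α, g, ht, rfl⟩ c _
    unfold tab
    split_ifs
    · exact Set.singleton_nonempty _
    · exact ht.ne
    · exact Set.singleton_nonempty _
  closed := by
    rintro _ ⟨y, α, g, ht, rfl⟩ c hc w hw z hz
    unfold tab at hw
    split_ifs at hw
    · rw [Set.mem_singleton_iff.1 hw] at hz
      rw [mem_salph]
      exact Or.inr (Or.inr (Or.inr (Or.inr (Or.inr (by simpa using hz)))))
    · exact ht.cl w hw z hz
    · rw [Set.mem_singleton_iff.1 hw] at hz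
      rw [List.mem_singleton.1 hz]
      exact hc
  start := G.start.map Lt.m ++ bar G Lt.b
  start_ne := by
    intro h
    have := (List.append_eq_nil_iff.1 h).1
    exact G.start_ne (List.map_eq_nil_iff.1 this)
  start_mem := by
    intro z hz
    rw [mem_salph]
    rcases List.mem_append.1 hz with hz | hz
    · obtain ⟨c, hc, rfl⟩ := List.mem_map.1 hz
      exact Or.inl ⟨c, G.start_mem c hc, rfl⟩
    · exact Or.inr (Or.inr (Or.inr (Or.inr (Or.inl (mem_bar.1 hz).1))))
  term := G.term.image Lt.m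
  term_sub := by
    intro z hz
    rw [mem_salph]
    obtain ⟨c, hc, rfl⟩ := Finset.mem_image.1 hz
    exact Or.inl ⟨c, G.term_sub hc, rfl⟩

theorem sim_restricted : (sim G).Restricted 2 := by
  rintro _ ⟨y, α, g, _, rfl⟩
  exact tab_ncard _ y α g

variable {G}

theorem step_of {y g : Lt A} {α : Set (List (Lt A))} (h : Tb G y α g) {W W' : List (Lt A)}
    (hs : Subst (tab y α g) W W') : (sim G).Step W W' := ⟨_, ⟨y, α, g, h, rfl⟩, hs⟩

theorem reach_inv {W : List (Lt A)} (h : Reach (sim G) W) : Inv G W := by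
  induction h with
  | refl =>
    right; right; left
    refine ⟨fun ψ hψ hne => List.mem_append_right _ (mem_bar.2 ⟨hψ, hne⟩), fun hb => ?_, ?_⟩
    · rcases List.mem_append.1 hb with hb | hb
      · obtain ⟨c, _, hc⟩ := List.mem_map.1 hb; cases hc
      · exact (mem_bar.1 hb).2 rfl
    · have : mn (sim G).start = G.start.map Sum.inl := by
        change mn (G.start.map Lt.m ++ bar G Lt.b) = _
        rw [mn_append, mn_bar, mn_map_m, List.append_nil]
      rw [this, forget_inl]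
      exact ReflTransGen.refl
  | tail _ h2 ih =>
    obtain ⟨_, ⟨y, α, g, ht, rfl⟩, hs⟩ := h2
    exact inv_step ht hs ih

theorem sim_sound : (sim G).lang ⊆ List.map Lt.m '' G.lang := by
  classical
  rintro W ⟨h1, h2⟩
  obtain ⟨u, hu, hut, hW⟩ := inv_term (reach_inv h2) (by
    intro c hc
    obtain ⟨x, hx, hxc⟩ := Finset.mem_image.1 (h1 c hc)
    exact ⟨x, hx, hxc.symm⟩)
  exact ⟨u, ⟨hut, hu⟩, hW.symm⟩

/-! ## completeness -/

/-- Phase `φ`, apart from main letters and clock letters only letters with the property `P`. -/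
def RE (φ : Lt A) (P : Lt A → Prop) (W : List (Lt A)) : Prop :=
  (∀ ψ ∈ clk G, ψ ≠ φ → ψ ∈ W) ∧ φ ∉ W ∧
    ∀ c ∈ W, (∃ x, c = Lt.m x) ∨ (∃ x, c = Lt.p x) ∨ c ∈ clk G ∨ P c

theorem killQ {φ : Lt A} : ∀ (X : List A), (∀ x ∈ X, x ∈ G.alph) → ∀ W : List (Lt A),
    (∀ x ∈ X, Lt.p x ∉ W) → RE (G := G) φ (fun c => ∃ x ∈ X, c = Lt.q x) W →
    ∃ W', ReflTransGen (sim G).Step W W' ∧ mn W' = mn W ∧ RE (G := G) φ (fun _ => False) W'
  | [], _, W, _, h => ⟨W, ReflTransGen.refl, rfl, h.1, h.2.1, fun c hc => by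
      rcases h.2.2 c hc with h | h | h | ⟨x, hx, _⟩
      · exact Or.inl h
      · exact Or.inr (Or.inl h)
      · exact Or.inr (Or.inr (Or.inl h))
      · simp at hx⟩
  | x :: X, hX, W, hW, h => by
    have hxa := hX x (by simp)
    have hg : Lt.p x ∉ W := hW x (by simp)
    obtain ⟨W1, h1⟩ := exists_sub (Lt.q x) (α := {[]}) (g := Lt.p x) ⟨_, rfl⟩ W
    have hmn := sub_mn h1 hg rfl (by
      intro u hu; rw [Set.mem_singleton_iff.1 hu]; rfl)
    have hmem : ∀ c ∈ W1, c ∈ W ∧ c ≠ Lt.q x := by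
      intro c hc
      rcases sub_mem h1 hc with h | ⟨_, u, hu, h⟩ | ⟨h, _⟩
      · exact ⟨h.1, h.2.1⟩
      · rw [Set.mem_singleton_iff.1 hu] at h; simp at h
      · exact absurd h hg
    obtain ⟨W', hW', hmn', hR⟩ := killQ X (fun z hz => hX z (List.mem_cons_of_mem _ hz)) W1
      (fun z hz hc => hW z (List.mem_cons_of_mem _ hz) (hmem _ hc).1) ⟨fun ψ hψ hne =>
        sub_keep h1 (h.1 ψ hψ hne) (clk_ne_q hψ x).symm (clk_ne_p hψ x).symm,
        fun hc => h.2.1 (hmem _ hc).1, fun c hc => by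
          obtain ⟨hc1, hc2⟩ := hmem c hc
          rcases h.2.2 c hc1 with h | h | h | ⟨z, hz, rfl⟩
          · exact Or.inl h
          · exact Or.inr (Or.inl h)
          · exact Or.inr (Or.inr (Or.inl h))
          · rcases List.mem_cons.1 hz with rfl | hz
            · exact absurd rfl hc2
            · exact Or.inr (Or.inr (Or.inr ⟨z, hz, rfl⟩))⟩
    exact ⟨W', ReflTransGen.head (step_of (Tb.K' hxa) h1) hW', by rw [hmn', hmn], hR⟩

theorem killE {φ : Lt A} : ∀ (X : List A), (∀ x ∈ X, x ∈ G.alph) → ∀ W : List (Lt A),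
    (∀ x ∈ X, Lt.m x ∉ W) → RE (G := G) φ (fun c => ∃ x ∈ X, c = Lt.e x) W →
    ∃ W', ReflTransGen (sim G).Step W W' ∧ mn W' = mn W ∧ RE (G := G) φ (fun _ => False) W'
  | [], _, W, _, h => ⟨W, ReflTransGen.refl, rfl, h.1, h.2.1, fun c hc => by
      rcases h.2.2 c hc with h | h | h | ⟨x, hx, _⟩
      · exact Or.inl h
      · exact Or.inr (Or.inl h)
      · exact Or.inr (Or.inr (Or.inl h))
      · simp at hx⟩
  | x :: X, hX, W, hW, h => by
    have hxa := hX x (by simp)
    have hg : Lt.m x ∉ W := hW x (by simp)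
    obtain ⟨W1, h1⟩ := exists_sub (Lt.e x) (α := {[]}) (g := Lt.m x) ⟨_, rfl⟩ W
    have hmn := sub_mn h1 hg rfl (by
      intro u hu; rw [Set.mem_singleton_iff.1 hu]; rfl)
    have hmem : ∀ c ∈ W1, c ∈ W ∧ c ≠ Lt.e x := by
      intro c hc
      rcases sub_mem h1 hc with h | ⟨_, u, hu, h⟩ | ⟨h, _⟩
      · exact ⟨h.1, h.2.1⟩
      · rw [Set.mem_singleton_iff.1 hu] at h; simp at h
      · exact absurd h hg
    obtain ⟨W', hW', hmn', hR⟩ := killE X (fun z hz => hX z (List.mem_cons_of_mem _ hz)) W1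
      (fun z hz hc => hW z (List.mem_cons_of_mem _ hz) (hmem _ hc).1) ⟨fun ψ hψ hne =>
        sub_keep h1 (h.1 ψ hψ hne) (clk_ne_e hψ x).symm (clk_ne_m hψ x).symm,
        fun hc => h.2.1 (hmem _ hc).1, fun c hc => by
          obtain ⟨hc1, hc2⟩ := hmem c hc
          rcases h.2.2 c hc1 with h | h | h | ⟨z, hz, rfl⟩
          · exact Or.inl h
          · exact Or.inr (Or.inl h)
          · exact Or.inr (Or.inr (Or.inl h))
          · rcases List.mem_cons.1 hz with rfl | hz
            · exact absurd rfl hc2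
            · exact Or.inr (Or.inr (Or.inr ⟨z, hz, rfl⟩))⟩
    exact ⟨W', ReflTransGen.head (step_of (Tb.K hxa) h1) hW', by rw [hmn', hmn], hR⟩

/-- A clock move. -/
theorem move {φ ψ : Lt A} (hφ : φ ∈ clk G) (hψ : ψ ∈ clk G) (hne : ψ ≠ φ) {ts : List (Lt A)}
    (hts : ∀ c ∈ ts, pr c = none ∧ c ∉ clk G) (htb : Tb G ψ {φ :: ts} φ) {W : List (Lt A)}
    (hW : RE (G := G) φ (fun _ => False) W) :
    ∃ W', (sim G).Step W W' ∧ mn W' = mn W ∧ RE (G := G) ψ (fun c => c ∈ ts) W' := by
  obtain ⟨W', h1⟩ := exists_sub ψ (α := {φ :: ts}) (g := φ) ⟨_, rfl⟩ W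
  have hg := hW.2.1
  have hmn := sub_mn h1 hg (clk_pr hψ) (by
    intro u hu
    rw [Set.mem_singleton_iff.1 hu]
    refine mn_nil_of fun c hc => ?_
    rcases List.mem_cons.1 hc with rfl | hc
    · exact clk_pr hφ
    · exact (hts c hc).1)
  obtain ⟨w, hw0, hw⟩ := sub_y h1 (hW.1 ψ hψ hne) hne
  rw [Set.mem_singleton_iff] at hw0
  subst hw0
  refine ⟨W', step_of htb h1, hmn, fun χ hχ hχψ => ?_, fun hc => ?_, fun c hc => ?_⟩
  · by_cases hh : χ = φ
    · subst hh; exact hw _ (by simp)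
    · exact sub_keep h1 (hW.1 χ hχ hh) hχψ hh
  · rcases sub_mem h1 hc with h | ⟨_, u, hu, h⟩ | ⟨h, _⟩
    · exact h.2.1 rfl
    · rw [Set.mem_singleton_iff.1 hu] at h
      rcases List.mem_cons.1 h with h | h
      · exact hne h
      · exact (hts _ h).2 hψ
    · exact hg h
  · rcases sub_mem h1 hc with h | ⟨_, u, hu, h⟩ | ⟨h, _⟩
    · rcases hW.2.2 c h.1 with h | h | h | h
      · exact Or.inl h
      · exact Or.inr (Or.inl h)
      · exact Or.inr (Or.inr (Or.inl h))
      · exact h.elim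
    · rw [Set.mem_singleton_iff.1 hu] at h
      rcases List.mem_cons.1 h with rfl | h
      · exact Or.inr (Or.inr (Or.inl hφ))
      · exact Or.inr (Or.inr (Or.inr h))
    · exact absurd h hg

theorem es_ok : ∀ c ∈ es G, pr c = none ∧ c ∉ clk G := by
  intro c hc
  obtain ⟨x, _, rfl⟩ := mem_es.1 hc
  exact ⟨rfl, fun h => clk_ne_e h x rfl⟩

theorem qs_ok : ∀ c ∈ qs G, pr c = none ∧ c ∉ clk G := by
  intro c hc
  obtain ⟨x, _, rfl⟩ := mem_qs.1 hc
  exact ⟨rfl, fun h => clk_ne_q h x rfl⟩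

/-! ### the rewriting phase -/

open Classical in
/-- The letters of `X` are rewritten, the others not yet. -/
noncomputable def vX (X : List A) (l : List (A × List A)) : List (A ⊕ A) :=
  l.flatMap fun p => if p.1 ∈ X then p.2.map Sum.inr else [Sum.inl p.1]

theorem subst_list {h : A → Set (List A)} {u v : List A} (hs : Subst h u v) :
    ∃ l : List (A × List A), u = l.map Prod.fst ∧ v = l.flatMap Prod.snd ∧
      ∀ p ∈ l, p.2 ∈ h p.1 := by
  induction hs with
  | nil => exact ⟨[], rfl, rfl, by simp⟩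
  | @cons c x u v hu _ ih =>
    obtain ⟨l, h1, h2, h3⟩ := ih
    refine ⟨(c, u) :: l, by rw [List.map_cons, ← h1], by rw [List.flatMap_cons, ← h2], ?_⟩
    intro p hp
    rcases List.mem_cons.1 hp with rfl | hp
    · exact hu
    · exact h3 p hp

open Classical in
theorem tstep_vX {h : A → Set (List A)} (x : A) (X : List A) : ∀ (l : List (A × List A)),
    (∀ p ∈ l, p.2 ∈ h p.1) → TStep h x (vX X l) (vX (x :: X) l)
  | [], _ => TStep.nil
  | p :: l, hl => by
    have ih := tstep_vX x X l fun q hq => hl q (List.mem_cons_of_mem _ hq)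
    have e1 : vX X (p :: l) = (if p.1 ∈ X then p.2.map Sum.inr else [Sum.inl p.1]) ++ vX X l := by
      unfold vX; rw [List.flatMap_cons]
    have e2 : vX (x :: X) (p :: l) =
        (if p.1 ∈ x :: X then p.2.map Sum.inr else [Sum.inl p.1]) ++ vX (x :: X) l := by
      unfold vX; rw [List.flatMap_cons]
    rw [e1, e2]
    by_cases hX : p.1 ∈ X
    · rw [if_pos hX, if_pos (List.mem_cons_of_mem _ hX)]
      exact TStep.pre' _ ih
    · by_cases hx : p.1 = x
      · rw [if_neg hX, if_pos (by rw [hx]; exact List.mem_cons_self ..)]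
        have := hl p (by simp)
        rw [hx] at this ⊢
        exact TStep.hit this ih
      · rw [if_neg hX, if_neg (by
          intro hm
          rcases List.mem_cons.1 hm with hm | hm
          · exact hx hm
          · exact hX hm)]
        exact TStep.skip (by
          intro hh
          injection hh with hh
          exact hx hh) ih

theorem phaseT {h : A → Set (List A)} (hh : h ∈ G.tables) {l : List (A × List A)}
    (hl : ∀ p ∈ l, p.2 ∈ h p.1) : ∀ (L : List A), (∀ x ∈ L, x ∈ G.alph) → ∀ (X : List A)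
    (W : List (Lt A)), RE (G := G) (Lt.a h) (fun _ => False) W → mn W = vX X l →
    ∃ W' X', ReflTransGen (sim G).Step W W' ∧ RE (G := G) (Lt.a h) (fun _ => False) W' ∧
      mn W' = vX X' l ∧ (∀ x ∈ L, x ∈ X')  ∧ (∀ x ∈ X, x ∈ X')
  | [], _, X, W, hW, hm => ⟨W, X, ReflTransGen.refl, hW, hm, by simp, fun _ h => h⟩
  | x :: L, hL, X, W, hW, hm => by
    have hxa := hL x (by simp)
    have hg : Lt.e x ∉ W := by
      intro hc
      rcases hW.2.2 _ hc with ⟨_, h⟩ | ⟨_, h⟩ | h | h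
      · cases h
      · cases h
      · exact clk_ne_e h x rfl
      · exact h
    obtain ⟨W1, h1, hm1⟩ := lift_T (h := h) (x := x) (bar := bar G (Lt.a h)) (mn_bar _) hg
      (hm ▸ tstep_vX x X l hl : TStep h x (mn W) (vX (x :: X) l))
    have hW1 : RE (G := G) (Lt.a h) (fun _ => False) W1 := by
      refine ⟨fun ψ hψ hne => sub_keep h1 (hW.1 ψ hψ hne) (clk_ne_m hψ x).symm
        (clk_ne_e hψ x).symm, fun hc => ?_, fun c hc => ?_⟩
      · rcases sub_mem h1 hc with h | ⟨_, u, ⟨u', _, rfl⟩, h⟩ | ⟨h, _⟩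
        · exact hW.2.1 h.1
        · rcases List.mem_append.1 h with h | h
          · obtain ⟨_, _, h⟩ := List.mem_map.1 h; cases h
          · exact (mem_bar.1 h).2 rfl
        · exact hg h
      · rcases sub_mem h1 hc with h | ⟨_, u, ⟨u', _, rfl⟩, h⟩ | ⟨h, _⟩
        · exact hW.2.2 c h.1
        · rcases List.mem_append.1 h with h | h
          · obtain ⟨z, _, h⟩ := List.mem_map.1 h
            exact Or.inr (Or.inl ⟨z, h.symm⟩)
          · exact Or.inr (Or.inr (Or.inl (mem_bar.1 h).1))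
        · exact absurd h hg
    obtain ⟨W', X', hs, hR, hm', hX1, hX2⟩ := phaseT hh hl L
      (fun z hz => hL z (List.mem_cons_of_mem _ hz)) (x :: X) W1 hW1 hm1
    refine ⟨W', X', ReflTransGen.head (step_of (Tb.T hh hxa) h1) hs, hR, hm', ?_,
      fun z hz => hX2 z (List.mem_cons_of_mem _ hz)⟩
    intro z hz
    rcases List.mem_cons.1 hz with rfl | hz
    · exact hX2 _ (by simp)
    · exact hX1 z hz

/-! ### the renaming phase -/

open Classical in
/-- Renaming. -/
noncomputable def ren (L : List A) : A ⊕ A → A ⊕ A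
  | .inl x => .inl x
  | .inr x => if x ∈ L then .inl x else .inr x

theorem phaseR : ∀ (L : List A), (∀ x ∈ L, x ∈ G.alph) → ∀ (W : List (Lt A)),
    RE (G := G) Lt.b (fun _ => False) W →
    ∃ W', ReflTransGen (sim G).Step W W' ∧ RE (G := G) Lt.b (fun _ => False) W' ∧
      mn W' = (mn W).map (ren L)
  | [], _, W, hW => by
    refine ⟨W, ReflTransGen.refl, hW, ?_⟩
    conv_lhs => rw [← List.map_id (mn W)]
    apply List.map_congr_left
    intro c _
    cases c <;> simp [ren]
  | x :: L, hL, W, hW => by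
    classical
    have hxa := hL x (by simp)
    have hg : Lt.q x ∉ W := by
      intro hc
      rcases hW.2.2 _ hc with ⟨_, h⟩ | ⟨_, h⟩ | h | h
      · cases h
      · cases h
      · exact clk_ne_q h x rfl
      · exact h
    obtain ⟨W1, h1⟩ := exists_sub (Lt.p x) (α := {Lt.m x :: bar G Lt.b}) (g := Lt.q x)
      ⟨_, rfl⟩ W
    have hm1 := sub_mn_R (mn_bar _) h1 hg
    have hW1 : RE (G := G) Lt.b (fun _ => False) W1 := by
      refine ⟨fun ψ hψ hne => sub_keep h1 (hW.1 ψ hψ hne) (clk_ne_p hψ x).symm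
        (clk_ne_q hψ x).symm, fun hc => ?_, fun c hc => ?_⟩
      · rcases sub_mem h1 hc with h | ⟨_, u, hu, h⟩ | ⟨h, _⟩
        · exact hW.2.1 h.1
        · rw [Set.mem_singleton_iff.1 hu] at h
          rcases List.mem_cons.1 h with h | h
          · cases h
          · exact (mem_bar.1 h).2 rfl
        · exact hg h
      · rcases sub_mem h1 hc with h | ⟨_, u, hu, h⟩ | ⟨h, _⟩
        · exact hW.2.2 c h.1
        · rw [Set.mem_singleton_iff.1 hu] at h
          rcases List.mem_cons.1 h with h | h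
          · exact Or.inl ⟨x, h⟩
          · exact Or.inr (Or.inr (Or.inl (mem_bar.1 h).1))
        · exact absurd h hg
    obtain ⟨W', hs, hR, hm'⟩ := phaseR L (fun z hz => hL z (List.mem_cons_of_mem _ hz)) W1 hW1
    refine ⟨W', ReflTransGen.head (step_of (Tb.R hxa) h1) hs, hR, ?_⟩
    rw [hm', hm1, List.map_map]
    apply List.map_congr_left
    intro c _
    cases c with
    | inl z => simp [ren]
    | inr z =>
      by_cases hz : z = x
      · subst hz; simp [ren]
      · simp [ren, hz]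

theorem vX_nil (l : List (A × List A)) : vX [] l = (l.map Prod.fst).map Sum.inl := by
  induction l with
  | nil => rfl
  | cons p l ih =>
    have e1 : vX [] (p :: l) = [Sum.inl p.1] ++ vX [] l := by
      unfold vX; rw [List.flatMap_cons]; simp
    rw [e1, ih]; rfl

theorem vX_all {X : List A} : ∀ (l : List (A × List A)), (∀ p ∈ l, p.1 ∈ X) →
    vX X l = (l.flatMap Prod.snd).map Sum.inr
  | [], _ => rfl
  | p :: l, hl => by
    have e1 : vX X (p :: l) = p.2.map Sum.inr ++ vX X l := by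
      unfold vX; rw [List.flatMap_cons, if_pos (hl p (by simp))]
    rw [e1, vX_all l fun q hq => hl q (List.mem_cons_of_mem _ hq), List.flatMap_cons,
      List.map_append]

/-- One simulated derivation step. -/
theorem round {h : A → Set (List A)} (hh : h ∈ G.tables) {u v : List A} (hs : Subst h u v)
    (hu : ∀ x ∈ u, x ∈ G.alph) {W : List (Lt A)} (hW : RE (G := G) Lt.b (fun _ => False) W)
    (hm : mn W = u.map Sum.inl) :
    ∃ W', ReflTransGen (sim G).Step W W' ∧ RE (G := G) Lt.b (fun _ => False) W' ∧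
      mn W' = v.map Sum.inl := by
  have hva : ∀ x ∈ v, x ∈ G.alph := hs.mem_closed (P := fun c => c ∈ G.alph)
    (fun c hc w hw z hz => G.closed h hh c hc w hw z hz) hu
  obtain ⟨l, rfl, rfl, hl⟩ := subst_list hs
  -- leave phase b
  obtain ⟨W1, s1, m1, r1⟩ := move (G := G) b_clk (a_clk.2 hh) (by simp) qs_ok (Tb.S2 hh) hW
  have hnp : ∀ x, Lt.p x ∉ W1 := by
    intro x hx
    have := mn_p.2 hx
    rw [m1, hm] at this
    simp at this
  obtain ⟨W2, s2, m2, r2⟩ := killQ (G := G) G.alph.toList (by simp) W1 (fun x _ => hnp x)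
    ⟨r1.1, r1.2.1, fun c hc => (r1.2.2 c hc).imp_right (Or.imp_right (Or.imp_right fun h => by
      obtain ⟨x, hx, h⟩ := mem_qs.1 h
      exact ⟨x, Finset.mem_toList.2 hx, h⟩))⟩
  -- rewriting
  obtain ⟨W3, X', s3, r3, m3, hX, _⟩ := phaseT hh hl G.alph.toList (by simp) [] W2 r2 (by
    rw [m2, m1, hm, vX_nil])
  have hm3 : mn W3 = (l.flatMap Prod.snd).map Sum.inr := by
    rw [m3]
    refine vX_all l fun p hp => hX _ (Finset.mem_toList.2 (hu _ (List.mem_map_of_mem hp)))
  -- leave phase a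
  obtain ⟨W4, s4, m4, r4⟩ := move (G := G) (a_clk.2 hh) b_clk (by simp) es_ok (Tb.S1 hh) r3
  have hnm : ∀ x, Lt.m x ∉ W4 := by
    intro x hx
    have := mn_m.2 hx
    rw [m4, hm3] at this
    simp at this
  obtain ⟨W5, s5, m5, r5⟩ := killE (G := G) G.alph.toList (by simp) W4 (fun x _ => hnm x)
    ⟨r4.1, r4.2.1, fun c hc => (r4.2.2 c hc).imp_right (Or.imp_right (Or.imp_right fun h => by
      obtain ⟨x, hx, h⟩ := mem_es.1 h
      exact ⟨x, Finset.mem_toList.2 hx, h⟩))⟩
  -- renaming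
  obtain ⟨W6, s6, r6, m6⟩ := phaseR (G := G) G.alph.toList (by simp) W5 r5
  refine ⟨W6, ((((ReflTransGen.single s1).trans s2).trans s3).tail s4).trans (s5.trans s6),
    r6, ?_⟩
  rw [m6, m5, m4, hm3, List.map_map]
  apply List.map_congr_left
  intro c hc
  have : c ∈ G.alph.toList := Finset.mem_toList.2 (hva c hc)
  simp [ren, hva c hc]

theorem reach_RE {u : List A} (h : Reach G u) : ∃ W, Reach (sim G) W ∧
    RE (G := G) Lt.b (fun _ => False) W ∧ mn W = u.map Sum.inl := by
  induction h with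
  | refl =>
    refine ⟨(sim G).start, ReflTransGen.refl, ⟨fun ψ hψ hne =>
      List.mem_append_right _ (mem_bar.2 ⟨hψ, hne⟩), fun hb => ?_, fun c hc => ?_⟩, ?_⟩
    · rcases List.mem_append.1 hb with hb | hb
      · obtain ⟨c, _, hc⟩ := List.mem_map.1 hb; cases hc
      · exact (mem_bar.1 hb).2 rfl
    · rcases List.mem_append.1 hc with hb | hb
      · obtain ⟨x, _, hc⟩ := List.mem_map.1 hb
        exact Or.inl ⟨x, hc.symm⟩
      · exact Or.inr (Or.inr (Or.inl (mem_bar.1 hb).1))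
    · change mn (G.start.map Lt.m ++ bar G Lt.b) = _
      rw [mn_append, mn_bar, mn_map_m, List.append_nil]
  | tail h1 h2 ih =>
    obtain ⟨W, hW, hR, hm⟩ := ih
    obtain ⟨h, hh, hs⟩ := h2
    obtain ⟨W', hs', hR', hm'⟩ := round hh hs (G.reach_mem h1) hR hm
    exact ⟨W', hW.trans hs', hR', hm'⟩

theorem phaseZ : ∀ (L : List (Lt A)), (∀ φ ∈ L, φ ∈ clk G ∧ φ ≠ Lt.d) → ∀ (W : List (Lt A)),
    Lt.d ∉ W → (∀ c ∈ W, (∃ x, c = Lt.m x) ∨ (∃ x, c = Lt.p x) ∨ c ∈ L) →
    ∃ W', ReflTransGen (sim G).Step W W' ∧ mn W' = mn W ∧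
      ∀ c ∈ W', (∃ x, c = Lt.m x) ∨ (∃ x, c = Lt.p x)
  | [], _, W, _, h => ⟨W, ReflTransGen.refl, rfl, fun c hc => by
      rcases h c hc with h | h | h
      · exact Or.inl h
      · exact Or.inr h
      · simp at h⟩
  | φ :: L, hL, W, hd, h => by
    obtain ⟨hφ, hφd⟩ := hL φ (by simp)
    obtain ⟨W1, h1⟩ := exists_sub φ (α := {[]}) (g := Lt.d) ⟨_, rfl⟩ W
    have hmn := sub_mn h1 hd (clk_pr hφ) (by
      intro u hu; rw [Set.mem_singleton_iff.1 hu]; rfl)
    have hmem : ∀ c ∈ W1, c ∈ W ∧ c ≠ φ := by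
      intro c hc
      rcases sub_mem h1 hc with h | ⟨_, u, hu, h⟩ | ⟨h, _⟩
      · exact ⟨h.1, h.2.1⟩
      · rw [Set.mem_singleton_iff.1 hu] at h; simp at h
      · exact absurd h hd
    obtain ⟨W', hW', hmn', hR⟩ := phaseZ L (fun z hz => hL z (List.mem_cons_of_mem _ hz)) W1
      (fun hc => hd (hmem _ hc).1) (fun c hc => by
        obtain ⟨hc1, hc2⟩ := hmem c hc
        rcases h c hc1 with h | h | h
        · exact Or.inl h
        · exact Or.inr (Or.inl h)
        · rcases List.mem_cons.1 h with h | h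
          · exact absurd h hc2
          · exact Or.inr (Or.inr h))
    exact ⟨W', ReflTransGen.head (step_of (Tb.Z hφ hφd) h1) hW', by rw [hmn', hmn], hR⟩

theorem sim_complete : List.map Lt.m '' G.lang ⊆ (sim G).lang := by
  classical
  rintro _ ⟨u, ⟨hut, hu⟩, rfl⟩
  obtain ⟨W, hW, hR, hm⟩ := reach_RE hu
  obtain ⟨W1, s1, m1, r1⟩ := move (G := G) b_clk d_clk (by simp) qs_ok Tb.S3 hR
  have hnp : ∀ x, Lt.p x ∉ W1 := by
    intro x hx
    have := mn_p.2 hx
    rw [m1, hm] at this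
    simp at this
  obtain ⟨W2, s2, m2, r2⟩ := killQ (G := G) G.alph.toList (by simp) W1 (fun x _ => hnp x)
    ⟨r1.1, r1.2.1, fun c hc => (r1.2.2 c hc).imp_right (Or.imp_right (Or.imp_right fun h => by
      obtain ⟨x, hx, h⟩ := mem_qs.1 h
      exact ⟨x, Finset.mem_toList.2 hx, h⟩))⟩
  obtain ⟨W3, s3, m3, r3⟩ := phaseZ (G := G) ((clk G).filter fun φ => φ ≠ Lt.d) (by
    intro φ hφ
    simpa using hφ) W2 r2.2.1 (by
    intro c hc
    rcases r2.2.2 c hc with h | h | h | h
    · exact Or.inl h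
    · exact Or.inr (Or.inl h)
    · refine Or.inr (Or.inr ?_)
      have : c ≠ Lt.d := fun hh => r2.2.1 (hh ▸ hc)
      simp [h, this]
    · exact h.elim)
  have hm3 : mn W3 = u.map Sum.inl := by rw [m3, m2, m1, hm]
  have hWe : W3 = u.map Lt.m := by
    refine eq_of_mn W3 (fun c hc => ?_) u hm3
    rcases r3 c hc with h | ⟨x, rfl⟩
    · exact h
    · have := mn_p.2 hc
      rw [hm3] at this
      simp at this
  refine ⟨fun x hx => ?_, ?_⟩
  · obtain ⟨z, hz, rfl⟩ := List.mem_map.1 hx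
    exact Finset.mem_image_of_mem _ (hut z hz)
  · rw [← hWe]
    exact ((hW.tail s1).trans s2).trans s3

theorem sim_lang : (sim G).lang = List.map Lt.m '' G.lang :=
  Set.Subset.antisymm sim_sound sim_complete

end Pool.Agent.Y581.ET
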