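import Mathlib

/-!
# ET0L systems and the k-restricted families

`ET0L A`: an ET0L system whose letters are taken from the type `A`.
-/

set_option autoImplicit false

namespace Pool.Agent.Y581.ET

/-- An ET0L system with letters from `A`: a finite alphabet, a finite nonempty set of tables, each
assigning to every letter of the alphabet a finite nonempty set of words over the alphabet, a
nonempty axiom and a terminal alphabet. (The values of a table outside the alphabet play no role.) -/
structure ET0L (A : Type) where
  /-- the alphabet -/
  alph : Finset A
  /-- the tables -/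
  tables : Set (A → Set (List A))
  fin_tables : tables.Finite
  ne_tables : tables.Nonempty
  fin_img : ∀ h ∈ tables, ∀ c ∈ alph, (h c).Finite
  ne_img : ∀ h ∈ tables, ∀ c ∈ alph, (h c).Nonempty
  closed : ∀ h ∈ tables, ∀ c ∈ alph, ∀ w ∈ h c, ∀ x ∈ w, x ∈ alph
  /-- the axiom -/
  start : List A
  start_ne : start ≠ []
  start_mem : ∀ x ∈ start, x ∈ alph
  /-- the terminal alphabet -/
  term : Finset A
  term_sub : term ⊆ alph

/-- `Subst h x y`: the word `y` arises from the word `x` by replacing, simultaneously and
independently, every letter occurrence `c` by a word of `h c`. -/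
inductive Subst {A : Type} (h : A → Set (List A)) : List A → List A → Prop
  | nil : Subst h [] []
  | cons {c : A} {x u v : List A} : u ∈ h c → Subst h x v → Subst h (c :: x) (u ++ v)

/-- A derivation step: apply one table. -/
def ET0L.Step {A : Type} (G : ET0L A) (x y : List A) : Prop := ∃ h ∈ G.tables, Subst h x y

/-- The language generated by `G`: the terminal words derivable from the axiom. -/
def ET0L.lang {A : Type} (G : ET0L A) : Set (List A) :=
  {w | (∀ x ∈ w, x ∈ G.term) ∧ Relation.ReflTransGen G.Step G.start w}

/-- `G` is `k`-restricted: in every table at most `k` letters `c` of the alphabet have a value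
different from `{c}`. -/
def ET0L.Restricted {A : Type} (G : ET0L A) (k : ℕ) : Prop :=
  ∀ h ∈ G.tables, {c : A | c ∈ G.alph ∧ h c ≠ {[c]}}.ncard ≤ k

/-- The family of languages generated by `k`-restricted ET0L systems with letters from `A`. -/
def Fam (A : Type) (k : ℕ) : Set (Set (List A)) :=
  {L | ∃ G : ET0L A, G.Restricted k ∧ G.lang = L}

/-- The family of all ET0L languages with letters from `A`. -/
def FamAll (A : Type) : Set (Set (List A)) := {L | ∃ G : ET0L A, G.lang = L}

end Pool.Agent.Y581.ET
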