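import Pool.Agent.Y581.ET.Basic

/-! # Derivations along a list of tables -/

set_option autoImplicit false

namespace Pool.Agent.Y581.ET

open Relation

variable {A : Type}

/-- Derivation along a list of tables. -/
inductive Der : List (A → Set (List A)) → List A → List A → Prop
  | nil (x : List A) : Der [] x x
  | cons {t : A → Set (List A)} {w : List (A → Set (List A))} {x y z : List A} :
      Subst t x y → Der w y z → Der (t :: w) x z

theorem Subst.append {t : A → Set (List A)} {x1 y1 x2 y2 : List A} (h1 : Subst t x1 y1)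
    (h2 : Subst t x2 y2) : Subst t (x1 ++ x2) (y1 ++ y2) := by
  induction h1 with
  | nil => exact h2
  | cons hu _ ih => rw [List.cons_append, List.append_assoc]; exact Subst.cons hu ih

theorem Subst.split {t : A → Set (List A)} : ∀ {x1 x2 y : List A}, Subst t (x1 ++ x2) y →
    ∃ y1 y2, y = y1 ++ y2 ∧ Subst t x1 y1 ∧ Subst t x2 y2
  | [], x2, y, h => ⟨[], y, rfl, Subst.nil, h⟩
  | c :: x1, x2, y, h => by
    rw [List.cons_append] at h
    cases h with
    | @cons _ _ u v hu hv =>
      obtain ⟨y1, y2, rfl, h1, h2⟩ := Subst.split hv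
      exact ⟨u ++ y1, y2, by rw [List.append_assoc], Subst.cons hu h1, h2⟩

theorem Subst.of_nil {t : A → Set (List A)} {y : List A} (h : Subst t [] y) : y = [] := by
  cases h; rfl

theorem subst_single {t : A → Set (List A)} {c : A} {y : List A} : Subst t [c] y ↔ y ∈ t c := by
  constructor
  · intro h
    cases h with
    | @cons _ _ u v hu hv =>
      rw [hv.of_nil, List.append_nil]; exact hu
  · intro h
    have := Subst.cons h (Subst.nil (h := t))
    rwa [List.append_nil] at this

theorem Der.append {w : List (A → Set (List A))} : ∀ {x1 y1 x2 y2 : List A}, Der w x1 y1 →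
    Der w x2 y2 → Der w (x1 ++ x2) (y1 ++ y2) := by
  induction w with
  | nil =>
    intro x1 y1 x2 y2 h1 h2
    cases h1; cases h2; exact Der.nil _
  | cons t w ih =>
    intro x1 y1 x2 y2 h1 h2
    cases h1 with
    | cons s1 d1 =>
      cases h2 with
      | cons s2 d2 => exact Der.cons (s1.append s2) (ih d1 d2)

theorem Der.split {w : List (A → Set (List A))} : ∀ {x1 x2 y : List A}, Der w (x1 ++ x2) y →
    ∃ y1 y2, y = y1 ++ y2 ∧ Der w x1 y1 ∧ Der w x2 y2 := by
  induction w with
  | nil =>
    intro x1 x2 y h
    cases h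
    exact ⟨x1, x2, rfl, Der.nil _, Der.nil _⟩
  | cons t w ih =>
    intro x1 x2 y h
    cases h with
    | cons s d =>
      obtain ⟨z1, z2, rfl, s1, s2⟩ := s.split
      obtain ⟨y1, y2, rfl, d1, d2⟩ := ih d
      exact ⟨y1, y2, rfl, Der.cons s1 d1, Der.cons s2 d2⟩

theorem Der.nil' (w : List (A → Set (List A))) : Der w [] [] := by
  induction w with
  | nil => exact Der.nil _
  | cons t w ih => exact Der.cons Subst.nil ih

theorem Der.of_nil {w : List (A → Set (List A))} : ∀ {y : List A}, Der w [] y → y = [] := by
  induction w with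
  | nil => intro y h; cases h; rfl
  | cons t w ih =>
    intro y h
    cases h with
    | cons s d => rw [s.of_nil] at d; exact ih d

theorem Der.comp {w1 : List (A → Set (List A))} : ∀ {w2 : List (A → Set (List A))}
    {x y z : List A}, Der w1 x y → Der w2 y z → Der (w1 ++ w2) x z := by
  induction w1 with
  | nil => intro w2 x y z h1 h2; cases h1; exact h2
  | cons t w1 ih =>
    intro w2 x y z h1 h2
    cases h1 with
    | cons s d => exact Der.cons s (ih d h2)

/-- Assemble a derivation from derivations of the single letters. -/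
theorem der_of_list {w : List (A → Set (List A))} : ∀ (l : List (A × List A)),
    (∀ q ∈ l, Der w [q.1] q.2) → Der w (l.map Prod.fst) (l.flatMap Prod.snd)
  | [], _ => Der.nil' w
  | q :: l, h => by
    rw [List.map_cons, List.flatMap_cons]
    exact Der.append (x1 := [q.1]) (h q (by simp))
      (der_of_list l fun q' hq => h q' (List.mem_cons_of_mem _ hq))

/-- Split a derivation into derivations of the single letters. -/
theorem list_of_der {w : List (A → Set (List A))} : ∀ {x y : List A}, Der w x y →
    ∃ l : List (A × List A), x = l.map Prod.fst ∧ y = l.flatMap Prod.snd ∧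
      ∀ q ∈ l, Der w [q.1] q.2
  | [], y, h => ⟨[], rfl, by rw [h.of_nil]; rfl, by simp⟩
  | c :: x, y, h => by
    obtain ⟨y1, y2, rfl, h1, h2⟩ := Der.split (x1 := [c]) (x2 := x) h
    obtain ⟨l, rfl, rfl, hl⟩ := list_of_der h2
    refine ⟨(c, y1) :: l, rfl, by rw [List.flatMap_cons], ?_⟩
    intro q hq
    rcases List.mem_cons.1 hq with rfl | hq
    · exact h1
    · exact hl q hq

/-- The next level of a decomposition. -/
theorem children {t : A → Set (List A)} {w : List (A → Set (List A))} :
    ∀ (l : List (A × List A)), (∀ q ∈ l, Der (t :: w) [q.1] q.2) →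
    ∃ l' : List (A × List A), Subst t (l.map Prod.fst) (l'.map Prod.fst) ∧
      l'.flatMap Prod.snd = l.flatMap Prod.snd ∧
      ∀ q' ∈ l', Der w [q'.1] q'.2 ∧ ∃ q ∈ l, ∀ z ∈ q'.2, z ∈ q.2
  | [], _ => ⟨[], Subst.nil, rfl, by simp⟩
  | q :: l, h => by
    obtain ⟨l', h1, h2, h3⟩ := children l fun q' hq => h q' (List.mem_cons_of_mem _ hq)
    have hq := h q (by simp)
    cases hq with
    | cons s d =>
      obtain ⟨m, hm1, hm2, hm3⟩ := list_of_der d
      subst hm1
      refine ⟨m ++ l', ?_, ?_, ?_⟩
      · rw [List.map_cons, List.map_append]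
        exact Subst.append (x1 := [q.1]) s h1
      · rw [List.flatMap_append, h2, List.flatMap_cons, hm2]
      · intro q' hq'
        rcases List.mem_append.1 hq' with hq' | hq'
        · refine ⟨hm3 q' hq', q, by simp, fun z hz => ?_⟩
          rw [hm2]
          exact List.mem_flatMap.2 ⟨q', hq', hz⟩
        · obtain ⟨h4, q'', hq'', h5⟩ := h3 q' hq'
          exact ⟨h4, q'', List.mem_cons_of_mem _ hq'', h5⟩

theorem Der.reach {G : ET0L A} {w : List (A → Set (List A))} (hw : ∀ t ∈ w, t ∈ G.tables) :
    ∀ {x y : List A}, Der w x y → ReflTransGen G.Step x y := by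
  induction w with
  | nil => intro x y h; cases h; exact ReflTransGen.refl
  | cons t w ih =>
    intro x y h
    cases h with
    | cons s d =>
      exact ReflTransGen.head ⟨t, hw t (by simp), s⟩
        (ih (fun t' ht' => hw t' (List.mem_cons_of_mem _ ht')) d)

theorem reach_der {G : ET0L A} {x y : List A} (h : ReflTransGen G.Step x y) :
    ∃ w : List (A → Set (List A)), (∀ t ∈ w, t ∈ G.tables) ∧ Der w x y := by
  induction h using ReflTransGen.head_induction_on with
  | refl => exact ⟨[], by simp, Der.nil _⟩
  | head h1 _ ih =>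
    obtain ⟨w, hw, hd⟩ := ih
    obtain ⟨t, ht, hs⟩ := h1
    refine ⟨t :: w, ?_, Der.cons hs hd⟩
    intro t' ht'
    rcases List.mem_cons.1 ht' with rfl | ht'
    · exact ht
    · exact hw t' ht'

/-- Length bound. -/
theorem Der.length_le {G : ET0L A} {C : ℕ}
    (hC : ∀ t ∈ G.tables, ∀ c ∈ G.alph, ∀ u ∈ t c, u.length ≤ C)
    {w : List (A → Set (List A))} (hw : ∀ t ∈ w, t ∈ G.tables) :
    ∀ {x y : List A}, (∀ c ∈ x, c ∈ G.alph) → Der w x y → y.length ≤ x.length * C ^ w.length := by
  induction w with
  | nil => intro x y _ h; cases h; simp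
  | cons t w ih =>
    intro x y hx h
    cases h with
    | @cons _ _ _ x' _ s d =>
      have ht := hw t (by simp)
      have hs : ∀ {x x' : List A}, (∀ c ∈ x, c ∈ G.alph) → Subst t x x' →
          x'.length ≤ x.length * C := by
        intro x x' hx s
        induction s with
        | nil => simp
        | @cons c x u v hu _ ih2 =>
          have h1 := hC t ht c (hx c (by simp)) u hu
          have h2 := ih2 fun c hc => hx c (List.mem_cons_of_mem _ hc)
          rw [List.length_append, List.length_cons, Nat.add_mul, Nat.one_mul]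
          omega
      have h1 := hs hx s
      have hx' : ∀ c ∈ x', c ∈ G.alph := G.step_mem ⟨t, ht, s⟩ hx
      have h2 := ih (fun t' ht' => hw t' (List.mem_cons_of_mem _ ht')) hx' d
      calc y.length ≤ x'.length * C ^ w.length := h2
        _ ≤ x.length * C * C ^ w.length := Nat.mul_le_mul_right _ h1
        _ = x.length * C ^ (t :: w).length := by
          rw [List.length_cons, pow_succ]; ring

end Pool.Agent.Y581.ET
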