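import Pool.Agent.Y581.ET.Comp

/-! # Every ET0L language is generated by a 2-restricted system -/

set_option autoImplicit false

namespace Pool.Agent.Y581.ET

open Relation

variable {A : Type}

theorem exists_naming [Infinite A] (G : ET0L A) :
    ∃ f : Lt A → A, Set.InjOn f (salph G : Set (Lt A)) ∧ ∀ x ∈ G.alph, f (Lt.m x) = x := by
  classical
  let R : Finset (Lt A) := salph G \ G.alph.image Lt.m
  have hinf : (((G.alph : Set A))ᶜ).Infinite := G.alph.finite_toSet.infinite_compl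
  obtain ⟨t, ht, hcard⟩ := hinf.exists_subset_card_eq R.card
  let eqv : R ≃ t := Finset.equivOfCardEq hcard.symm
  let f : Lt A → A := fun c =>
    if hc : c ∈ R then (eqv ⟨c, hc⟩ : A) else
      match c with
      | .m x => x
      | _ => Classical.arbitrary A
  have hfR : ∀ c (hc : c ∈ R), f c = (eqv ⟨c, hc⟩ : A) := fun c hc => dif_pos hc
  have hfm : ∀ x ∈ G.alph, f (Lt.m x) = x := by
    intro x hx
    have : Lt.m x ∉ R := by
      intro h
      exact (Finset.mem_sdiff.1 h).2 (Finset.mem_image_of_mem _ hx)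
    simp only [f, dif_neg this]
  have hsplit : ∀ c ∈ salph G, c ∈ R ∨ ∃ x ∈ G.alph, c = Lt.m x := by
    intro c hc
    by_cases hm : c ∈ G.alph.image Lt.m
    · obtain ⟨x, hx, rfl⟩ := Finset.mem_image.1 hm
      exact Or.inr ⟨x, hx, rfl⟩
    · exact Or.inl (Finset.mem_sdiff.2 ⟨hc, hm⟩)
  have hfR' : ∀ c ∈ R, f c ∉ G.alph := by
    intro c hc
    rw [hfR c hc]
    have := ht (eqv ⟨c, hc⟩).2
    simpa using this
  refine ⟨f, ?_, hfm⟩
  intro c hc c' hc' hcd
  rcases hsplit c hc with h1 | ⟨x, hx, rfl⟩ <;> rcases hsplit c' hc' with h2 | ⟨y, hy, rfl⟩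
  · rw [hfR c h1, hfR c' h2] at hcd
    have := eqv.injective (Subtype.ext hcd)
    exact congrArg Subtype.val this
  · exfalso
    apply hfR' c h1
    rw [hcd, hfm y hy]
    exact hy
  · exfalso
    apply hfR' c' h2
    rw [← hcd, hfm x hx]
    exact hx
  · rw [hfm x hx, hfm y hy] at hcd
    rw [hcd]

/-- **Every ET0L language is generated by a 2-restricted ET0L system.** -/
theorem famAll_sub [Infinite A] {L : Set (List A)} (hL : L ∈ FamAll A) : L ∈ Fam A 2 := by
  obtain ⟨G, rfl⟩ := hL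
  obtain ⟨f, hf, hfm⟩ := exists_naming G
  refine ⟨mapSys (sim G) f hf, mapSys_restricted _ _ _ (sim_restricted G), ?_⟩
  rw [mapSys_lang, sim_lang, Set.image_image]
  have : ∀ w ∈ G.lang, (List.map f (List.map Lt.m w)) = w := by
    rintro w ⟨_, h2⟩
    rw [List.map_map]
    conv_rhs => rw [← List.map_id w]
    apply List.map_congr_left
    intro x hx
    exact hfm x (G.reach_mem h2 x hx)
  ext w
  constructor
  · rintro ⟨v, hv, rfl⟩
    show List.map f (List.map Lt.m v) ∈ G.lang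
    rw [this v hv]; exact hv
  · intro hw
    exact ⟨w, hw, this w hw⟩

theorem fam_mono {k l : ℕ} (h : k ≤ l) : Fam A k ⊆ Fam A l := by
  rintro L ⟨G, hG, rfl⟩
  exact ⟨G, fun t ht => (hG t ht).trans h, rfl⟩

theorem fam_sub_all (k : ℕ) : Fam A k ⊆ FamAll A := by
  rintro L ⟨G, _, rfl⟩
  exact ⟨G, rfl⟩

theorem fam_eq_all [Infinite A] {k : ℕ} (h : 2 ≤ k) : Fam A k = FamAll A :=
  Set.Subset.antisymm (fam_sub_all k) fun _ hL => fam_mono h (famAll_sub hL)

end Pool.Agent.Y581.ET
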