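import Pool.Agent.Y581.ET.Tab

/-! # The simulating 2-restricted system: definition and soundness -/

set_option autoImplicit false

namespace Pool.Agent.Y581.ET

open Relation

variable {A : Type} (G : ET0L A)

/-- The clock letters. -/
noncomputable def clk : List (Lt A) := Lt.b :: Lt.d :: (G.fin_tables.toFinset.toList).map Lt.a

open Classical in
/-- All clock letters but `φ`. -/
noncomputable def bar (φ : Lt A) : List (Lt A) := (clk G).filter (fun ψ => ψ ≠ φ)

/-- The tests for the letters `m x`. -/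
noncomputable def es : List (Lt A) := G.alph.toList.map Lt.e

/-- The tests for the letters `p x`. -/
noncomputable def qs : List (Lt A) := G.alph.toList.map Lt.q

variable {G}

theorem b_clk : Lt.b ∈ clk G := by simp [clk]

theorem d_clk : Lt.d ∈ clk G := by simp [clk]

theorem a_clk {h : A → Set (List A)} : Lt.a h ∈ clk G ↔ h ∈ G.tables := by
  simp [clk]

theorem clk_pr {φ : Lt A} (h : φ ∈ clk G) : pr φ = none := by
  rcases List.mem_cons.1 h with rfl | h
  · rfl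
  rcases List.mem_cons.1 h with rfl | h
  · rfl
  obtain ⟨t, _, rfl⟩ := List.mem_map.1 h
  rfl

theorem mem_bar {φ ψ : Lt A} : ψ ∈ bar G φ ↔ ψ ∈ clk G ∧ ψ ≠ φ := by
  simp [bar]

theorem mn_bar (φ : Lt A) : mn (bar G φ) = [] :=
  mn_nil_of fun _ hc => clk_pr (mem_bar.1 hc).1

theorem mem_es {z : Lt A} : z ∈ es G ↔ ∃ x ∈ G.alph, z = Lt.e x := by
  simp only [es, List.mem_map, Finset.mem_toList]
  constructor
  · rintro ⟨x, h, rfl⟩; exact ⟨x, h, rfl⟩
  · rintro ⟨x, h, rfl⟩; exact ⟨x, h, rfl⟩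

theorem mem_qs {z : Lt A} : z ∈ qs G ↔ ∃ x ∈ G.alph, z = Lt.q x := by
  simp only [qs, List.mem_map, Finset.mem_toList]
  constructor
  · rintro ⟨x, h, rfl⟩; exact ⟨x, h, rfl⟩
  · rintro ⟨x, h, rfl⟩; exact ⟨x, h, rfl⟩

variable (G)

/-- The tables of the simulating system, given by `(y, α, g)`. -/
inductive Tb : Lt A → Set (List (Lt A)) → Lt A → Prop
  | T {h : A → Set (List A)} {x : A} : h ∈ G.tables → x ∈ G.alph →
      Tb (Lt.m x) (Tim h x (bar G (Lt.a h))) (Lt.e x)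
  | R {x : A} : x ∈ G.alph → Tb (Lt.p x) {Lt.m x :: bar G Lt.b} (Lt.q x)
  | K {x : A} : x ∈ G.alph → Tb (Lt.e x) {[]} (Lt.m x)
  | K' {x : A} : x ∈ G.alph → Tb (Lt.q x) {[]} (Lt.p x)
  | S1 {h : A → Set (List A)} : h ∈ G.tables → Tb Lt.b {Lt.a h :: es G} (Lt.a h)
  | S2 {h : A → Set (List A)} : h ∈ G.tables → Tb (Lt.a h) {Lt.b :: qs G} Lt.b
  | S3 : Tb Lt.d {Lt.b :: qs G} Lt.b
  | Z {φ : Lt A} : φ ∈ clk G → φ ≠ Lt.d → Tb φ {[]} Lt.d

/-- Reachable words of `G`. -/
def Reach (u : List A) : Prop := ReflTransGen G.Step G.start u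

/-- The words that cannot derive a terminal word any more. -/
def Doom (W : List (Lt A)) : Prop :=
  Lt.F ∈ W ∨ (∃ x, Lt.m x ∈ W ∧ Lt.e x ∈ W) ∨ (∃ x, Lt.p x ∈ W ∧ Lt.q x ∈ W) ∨
    ∀ ψ ∈ clk G, ψ ∈ W

/-- Phase `a h`. -/
def GA (h : A → Set (List A)) (W : List (Lt A)) : Prop :=
  (∀ ψ ∈ clk G, ψ ≠ Lt.a h → ψ ∈ W) ∧ Lt.a h ∉ W ∧ ∃ u, Reach G u ∧ PA h u (mn W)

/-- Phase `b`. -/
def GB (W : List (Lt A)) : Prop :=
  (∀ ψ ∈ clk G, ψ ≠ Lt.b → ψ ∈ W) ∧ Lt.b ∉ W ∧
    Reach G ((mn W).map (Sum.elim id id))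

/-- Phase `d`. -/
def GD (W : List (Lt A)) : Prop := Lt.d ∉ W ∧ ∃ u, Reach G u ∧ mn W = u.map Sum.inl

/-- The invariant. -/
def Inv (W : List (Lt A)) : Prop :=
  Doom G W ∨ (∃ h ∈ G.tables, GA G h W) ∨ GB G W ∨ GD G W

variable {G}

theorem Tb.ne_F {y g : Lt A} {α : Set (List (Lt A))} (h : Tb G y α g) : Lt.F ≠ y ∧ Lt.F ≠ g := by
  cases h <;> refine ⟨?_, ?_⟩ <;> try (intro hh; cases hh)
  rename_i hφ _
  simp [clk] at hφ

theorem clk_ne_m {φ : Lt A} (h : φ ∈ clk G) (x : A) : Lt.m x ≠ φ := by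
  rintro rfl; simp [clk] at h

theorem clk_ne_p {φ : Lt A} (h : φ ∈ clk G) (x : A) : Lt.p x ≠ φ := by
  rintro rfl; simp [clk] at h

theorem clk_ne_e {φ : Lt A} (h : φ ∈ clk G) (x : A) : Lt.e x ≠ φ := by
  rintro rfl; simp [clk] at h

theorem clk_ne_q {φ : Lt A} (h : φ ∈ clk G) (x : A) : Lt.q x ≠ φ := by
  rintro rfl; simp [clk] at h

theorem Tb.pair_m {y g : Lt A} {α : Set (List (Lt A))} (h : Tb G y α g) {x : A}
    (hy : y = Lt.m x) : g = Lt.e x := by
  cases h with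
  | T _ _ => cases hy; rfl
  | Z h _ => exact absurd hy.symm (clk_ne_m h x)
  | _ => cases hy

theorem Tb.pair_e {y g : Lt A} {α : Set (List (Lt A))} (h : Tb G y α g) {x : A}
    (hy : y = Lt.e x) : g = Lt.m x := by
  cases h with
  | K _ => cases hy; rfl
  | Z h _ => exact absurd hy.symm (clk_ne_e h x)
  | _ => cases hy

theorem Tb.pair_p {y g : Lt A} {α : Set (List (Lt A))} (h : Tb G y α g) {x : A}
    (hy : y = Lt.p x) : g = Lt.q x := by
  cases h with
  | R _ => cases hy; rfl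
  | Z h _ => exact absurd hy.symm (clk_ne_p h x)
  | _ => cases hy

theorem Tb.pair_q {y g : Lt A} {α : Set (List (Lt A))} (h : Tb G y α g) {x : A}
    (hy : y = Lt.q x) : g = Lt.p x := by
  cases h with
  | K' _ => cases hy; rfl
  | Z h _ => exact absurd hy.symm (clk_ne_q h x)
  | _ => cases hy

theorem Tb.pair_c {y g : Lt A} {α : Set (List (Lt A))} (h : Tb G y α g) (hy : y ∈ clk G) :
    g ∈ clk G := by
  cases h with
  | T _ _ => simp [clk] at hy
  | R _ => simp [clk] at hy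
  | K _ => simp [clk] at hy
  | K' _ => simp [clk] at hy
  | S1 h => exact a_clk.2 h
  | S2 _ => exact b_clk
  | S3 => exact b_clk
  | Z _ _ => exact d_clk

theorem doom_step {y g : Lt A} {α : Set (List (Lt A))} (h : Tb G y α g) {W W' : List (Lt A)}
    (hs : Subst (tab y α g) W W') (hd : Doom G W) : Doom G W' := by
  by_cases hg : g ∈ W
  · exact Or.inl (sub_F hs hg)
  rcases hd with hd | ⟨x, hd1, hd2⟩ | ⟨x, hd1, hd2⟩ | hd
  · exact Or.inl (sub_keep hs hd h.ne_F.1 h.ne_F.2)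
  · refine Or.inr (Or.inl ⟨x, sub_keep hs hd1 ?_ ?_, sub_keep hs hd2 ?_ ?_⟩)
    · rintro hy; exact hg (h.pair_m hy.symm ▸ hd2)
    · rintro rfl; exact hg hd1
    · rintro hy; exact hg (h.pair_e hy.symm ▸ hd1)
    · rintro rfl; exact hg hd2
  · refine Or.inr (Or.inr (Or.inl ⟨x, sub_keep hs hd1 ?_ ?_, sub_keep hs hd2 ?_ ?_⟩))
    · rintro hy; exact hg (h.pair_p hy.symm ▸ hd2)
    · rintro rfl; exact hg hd1
    · rintro hy; exact hg (h.pair_q hy.symm ▸ hd1)
    · rintro rfl; exact hg hd2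
  · refine Or.inr (Or.inr (Or.inr fun ψ hψ => sub_keep hs (hd ψ hψ) ?_ ?_))
    · rintro rfl; exact hg (hd _ (h.pair_c hψ))
    · rintro rfl; exact hg (hd _ hψ)

theorem ndoom_m {W : List (Lt A)} (hd : ¬ Doom G W) {x : A} (h1 : Lt.e x ∈ W) : Lt.m x ∉ W :=
  fun h => hd (Or.inr (Or.inl ⟨x, h, h1⟩))

theorem ndoom_p {W : List (Lt A)} (hd : ¬ Doom G W) {x : A} (h1 : Lt.q x ∈ W) : Lt.p x ∉ W :=
  fun h => hd (Or.inr (Or.inr (Or.inl ⟨x, h, h1⟩)))

theorem ndoom_c {W : List (Lt A)} (hd : ¬ Doom G W) {φ : Lt A}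
    (h1 : ∀ ψ ∈ clk G, ψ ≠ φ → ψ ∈ W) : φ ∉ W := fun h =>
  hd (Or.inr (Or.inr (Or.inr fun ψ hψ => by
    by_cases hh : ψ = φ
    · exact hh ▸ h
    · exact h1 ψ hψ hh)))

theorem map_inl_of {v : List (A ⊕ A)} (h : ∀ x, Sum.inr x ∉ v) :
    v = (v.map (Sum.elim id id)).map Sum.inl := by
  induction v with
  | nil => rfl
  | cons c v ih =>
    rw [List.map_cons, List.map_cons, ← ih fun x hx => h x (List.mem_cons_of_mem _ hx)]
    cases c with
    | inl x => rfl
    | inr x => exact absurd (by simp) (h x)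

theorem forget_inr (u : List A) : (u.map Sum.inr : List (A ⊕ A)).map (Sum.elim id id) = u := by
  rw [List.map_map]
  simp

theorem forget_inl (u : List A) : (u.map Sum.inl : List (A ⊕ A)).map (Sum.elim id id) = u := by
  rw [List.map_map]
  simp

theorem inv_same {W W' : List (Lt A)} (hm : mn W' = mn W)
    (hc : ∀ φ ∈ clk G, φ ∈ W' ↔ φ ∈ W)
    (hW : (∃ h ∈ G.tables, GA G h W) ∨ GB G W ∨ GD G W) :
    (∃ h ∈ G.tables, GA G h W') ∨ GB G W' ∨ GD G W' := by
  rcases hW with ⟨h, hh, h1, h2, h3⟩ | ⟨h1, h2, h3⟩ | ⟨h1, h2⟩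
  · exact Or.inl ⟨h, hh, fun ψ hψ hne => (hc ψ hψ).2 (h1 ψ hψ hne),
      fun h' => h2 ((hc _ (a_clk.2 hh)).1 h'), by rw [hm]; exact h3⟩
  · exact Or.inr (Or.inl ⟨fun ψ hψ hne => (hc ψ hψ).2 (h1 ψ hψ hne),
      fun h' => h2 ((hc _ b_clk).1 h'), by rw [hm]; exact h3⟩)
  · exact Or.inr (Or.inr ⟨fun h' => h1 ((hc _ d_clk).1 h'), by rw [hm]; exact h2⟩)

theorem inv_step {y g : Lt A} {α : Set (List (Lt A))} (ht : Tb G y α g) {W W' : List (Lt A)}
    (hs : Subst (tab y α g) W W') (hW : Inv G W) : Inv G W' := by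
  rcases hW with hW | hW
  · exact Or.inl (doom_step ht hs hW)
  by_cases hd' : Doom G W'
  · exact Or.inl hd'
  right
  have hg : g ∉ W := fun h => hd' (Or.inl (sub_F hs h))
  by_cases hy : y ∉ W
  · rw [sub_id hs hy hg]; exact hW
  rw [not_not] at hy
  cases ht with
  | @T h x hh hx =>
    obtain ⟨w, ⟨u0, _, rfl⟩, hw⟩ := sub_y hs hy (by simp)
    have hc : ∀ ψ ∈ clk G, ψ ≠ Lt.a h → ψ ∈ W' := fun ψ hψ hne =>
      hw ψ (List.mem_append_right _ (mem_bar.2 ⟨hψ, hne⟩))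
    have ha' : Lt.a h ∉ W' := ndoom_c hd' hc
    have ha : Lt.a h ∉ W := fun h' => ha' (sub_keep hs h' (by simp) (by simp))
    have hmn := sub_mn_T (mn_bar _) hs hg
    left
    refine ⟨h, hh, hc, ha', ?_⟩
    rcases hW with ⟨h', _, h1, _, u, hu, hp⟩ | ⟨h1, _, _⟩ | ⟨_, u, hu, hp⟩
    · have : h' = h := by
        by_contra hne
        exact ha (h1 _ (a_clk.2 hh) (by
          intro hh'
          injection hh' with hh'
          exact hne hh'.symm))
      subst this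
      exact ⟨u, hu, hp.T hmn⟩
    · exact absurd (h1 _ (a_clk.2 hh) (by simp)) ha
    · exact ⟨u, hu, (hp ▸ PA.init h u : PA h u (mn W)).T hmn⟩
  | @R x hx =>
    classical
    obtain ⟨w, hw0, hw⟩ := sub_y hs hy (by simp)
    rw [Set.mem_singleton_iff] at hw0
    subst hw0
    have hc : ∀ ψ ∈ clk G, ψ ≠ Lt.b → ψ ∈ W' := fun ψ hψ hne =>
      hw ψ (List.mem_cons_of_mem _ (mem_bar.2 ⟨hψ, hne⟩))
    have hb' : Lt.b ∉ W' := ndoom_c hd' hc
    have hb : Lt.b ∉ W := fun h' => hb' (sub_keep hs h' (by simp) (by simp))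
    have hmn := sub_mn_R (mn_bar _) hs hg
    right; left
    refine ⟨hc, hb', ?_⟩
    rcases hW with ⟨h', _, h1, _⟩ | ⟨_, _, h3⟩ | ⟨_, u, hu, hp⟩
    · exact absurd (h1 _ b_clk (by simp)) hb
    · rw [hmn, List.map_map]
      convert h3 using 2
      funext c
      by_cases hcx : c = Sum.inr x
      · subst hcx; simp
      · simp [hcx]
    · exfalso
      have : Sum.inr x ∈ mn W := mn_p.2 hy
      rw [hp] at this
      simp at this
  | @K x hx =>
    refine inv_same (sub_mn hs hg rfl (by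
      intro u hu; rw [Set.mem_singleton_iff.1 hu]; rfl)) (fun φ hφ => ?_) hW
    refine ⟨fun h => ?_, fun h => sub_keep hs h (clk_ne_e hφ x).symm (clk_ne_m hφ x).symm⟩
    rcases sub_mem hs h with h | ⟨_, u, hu, h⟩ | ⟨h, _⟩
    · exact h.1
    · rw [Set.mem_singleton_iff.1 hu] at h; simp at h
    · exact absurd h hg
  | @K' x hx =>
    refine inv_same (sub_mn hs hg rfl (by
      intro u hu; rw [Set.mem_singleton_iff.1 hu]; rfl)) (fun φ hφ => ?_) hW
    refine ⟨fun h => ?_, fun h => sub_keep hs h (clk_ne_q hφ x).symm (clk_ne_p hφ x).symm⟩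
    rcases sub_mem hs h with h | ⟨_, u, hu, h⟩ | ⟨h, _⟩
    · exact h.1
    · rw [Set.mem_singleton_iff.1 hu] at h; simp at h
    · exact absurd h hg
  | @S1 h hh =>
    obtain ⟨w, hw0, hw⟩ := sub_y hs hy (by simp)
    rw [Set.mem_singleton_iff] at hw0
    subst hw0
    have hmes : mn (Lt.a h :: es G) = [] := mn_nil_of (by
      intro c hc
      rcases List.mem_cons.1 hc with rfl | hc
      · rfl
      · obtain ⟨x, _, rfl⟩ := mem_es.1 hc; rfl)
    have hmn := sub_mn hs hg rfl (by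
      intro u hu; rw [Set.mem_singleton_iff.1 hu]; exact hmes)
    have hem : ∀ x ∈ G.alph, Lt.m x ∉ W' := fun x hx => ndoom_m hd'
      (hw _ (List.mem_cons_of_mem _ (mem_es.2 ⟨x, hx, rfl⟩)))
    rcases hW with ⟨h', hh', h1, _, u, hu, hp⟩ | ⟨_, h2, _⟩ | ⟨h1, u, hu, hp⟩
    · have : h' = h := by
        by_contra hne
        exact hg (h1 _ (a_clk.2 hh) (by
          intro hh'
          injection hh' with hh'
          exact hne hh'.symm))
      subst this
      right; left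
      have hno : ∀ x, Sum.inl x ∉ mn W := by
        intro x hx
        have hxa : x ∈ G.alph := G.reach_mem hu x (hp.mem hx)
        rw [← hmn] at hx
        exact hem x hxa (mn_m.1 hx)
      obtain ⟨u', hu', hv⟩ := hp.exit hno
      refine ⟨fun ψ hψ hne => ?_, fun hb => ?_, ?_⟩
      · by_cases hψa : ψ = Lt.a h'
        · subst hψa; exact hw _ (by simp)
        · exact sub_keep hs (h1 ψ hψ hψa) hne hψa
      · rcases sub_mem hs hb with h | ⟨_, u, hu, h⟩ | ⟨h, _⟩
        · exact h.2.1 rfl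
        · rw [Set.mem_singleton_iff.1 hu] at h
          rcases List.mem_cons.1 h with h | h
          · cases h
          · obtain ⟨x, _, h⟩ := mem_es.1 h; cases h
        · exact absurd h hg
      · rw [hmn, hv, forget_inr]
        exact hu.tail ⟨h', hh', hu'⟩
    · exact absurd hy h2
    · right; right
      refine ⟨fun hb => ?_, u, hu, by rw [hmn, hp]⟩
      rcases sub_mem hs hb with h | ⟨_, u, hu, h⟩ | ⟨h, _⟩
      · exact h1 h.1
      · rw [Set.mem_singleton_iff.1 hu] at h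
        rcases List.mem_cons.1 h with h | h
        · cases h
        · obtain ⟨x, _, h⟩ := mem_es.1 h; cases h
      · exact absurd h hg
  | @S2 h hh =>
    obtain ⟨w, hw0, hw⟩ := sub_y hs hy (by simp)
    rw [Set.mem_singleton_iff] at hw0
    subst hw0
    have hmqs : mn (Lt.b :: qs G) = [] := mn_nil_of (by
      intro c hc
      rcases List.mem_cons.1 hc with rfl | hc
      · rfl
      · obtain ⟨x, _, rfl⟩ := mem_qs.1 hc; rfl)
    have hmn := sub_mn hs hg rfl (by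
      intro u hu; rw [Set.mem_singleton_iff.1 hu]; exact hmqs)
    have hem : ∀ x ∈ G.alph, Lt.p x ∉ W' := fun x hx => ndoom_p hd'
      (hw _ (List.mem_cons_of_mem _ (mem_qs.2 ⟨x, hx, rfl⟩)))
    rcases hW with ⟨h', hh', h1, _⟩ | ⟨h1, h2, h3⟩ | ⟨h1, u, hu, hp⟩
    · exact absurd (h1 _ b_clk (by simp)) hg
    · left
      have hno : ∀ x, Sum.inr x ∉ mn W := by
        intro x hx
        have hxa : x ∈ G.alph := G.reach_mem h3 x (List.mem_map.2 ⟨_, hx, rfl⟩)
        rw [← hmn] at hx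
        exact hem x hxa (mn_p.1 hx)
      refine ⟨h, hh, fun ψ hψ hne => ?_, fun hb => ?_, _, h3, ?_⟩
      · by_cases hψa : ψ = Lt.b
        · subst hψa; exact hw _ (by simp)
        · exact sub_keep hs (h1 ψ hψ hψa) hne hψa
      · rcases sub_mem hs hb with h | ⟨_, u, hu, h⟩ | ⟨h, _⟩
        · exact h.2.1 rfl
        · rw [Set.mem_singleton_iff.1 hu] at h
          rcases List.mem_cons.1 h with h | h
          · cases h
          · obtain ⟨x, _, h⟩ := mem_qs.1 h; cases h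
        · exact absurd h hg
      · rw [hmn]
        conv => arg 3; rw [map_inl_of hno]
        exact PA.init h _
    · right; right
      refine ⟨fun hb => ?_, u, hu, by rw [hmn, hp]⟩
      rcases sub_mem hs hb with h | ⟨_, u, hu, h⟩ | ⟨h, _⟩
      · exact h1 h.1
      · rw [Set.mem_singleton_iff.1 hu] at h
        rcases List.mem_cons.1 h with h | h
        · cases h
        · obtain ⟨x, _, h⟩ := mem_qs.1 h; cases h
      · exact absurd h hg
  | S3 =>
    obtain ⟨w, hw0, hw⟩ := sub_y hs hy (by simp)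
    rw [Set.mem_singleton_iff] at hw0
    subst hw0
    have hmqs : mn (Lt.b :: qs G) = [] := mn_nil_of (by
      intro c hc
      rcases List.mem_cons.1 hc with rfl | hc
      · rfl
      · obtain ⟨x, _, rfl⟩ := mem_qs.1 hc; rfl)
    have hmn := sub_mn hs hg rfl (by
      intro u hu; rw [Set.mem_singleton_iff.1 hu]; exact hmqs)
    have hem : ∀ x ∈ G.alph, Lt.p x ∉ W' := fun x hx => ndoom_p hd'
      (hw _ (List.mem_cons_of_mem _ (mem_qs.2 ⟨x, hx, rfl⟩)))
    rcases hW with ⟨h', hh', h1, _⟩ | ⟨h1, h2, h3⟩ | ⟨h1, u, hu, hp⟩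
    · exact absurd (h1 _ b_clk (by simp)) hg
    · right; right
      have hno : ∀ x, Sum.inr x ∉ mn W := by
        intro x hx
        have hxa : x ∈ G.alph := G.reach_mem h3 x (List.mem_map.2 ⟨_, hx, rfl⟩)
        rw [← hmn] at hx
        exact hem x hxa (mn_p.1 hx)
      refine ⟨fun hb => ?_, _, h3, ?_⟩
      · rcases sub_mem hs hb with h | ⟨_, u, hu, h⟩ | ⟨h, _⟩
        · exact h.2.1 rfl
        · rw [Set.mem_singleton_iff.1 hu] at h
          rcases List.mem_cons.1 h with h | h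
          · cases h
          · obtain ⟨x, _, h⟩ := mem_qs.1 h; cases h
        · exact absurd h hg
      · rw [hmn]
        exact map_inl_of hno
    · exact absurd hy h1
  | @Z φ hφ hne =>
    rcases hW with ⟨h', hh', h1, _⟩ | ⟨h1, h2, h3⟩ | ⟨h1, u, hu, hp⟩
    · exact absurd (h1 _ d_clk (by simp)) hg
    · exact absurd (h1 _ d_clk (by simp)) hg
    · right; right
      have hmn := sub_mn hs hg (clk_pr hφ) (by
        intro u hu; rw [Set.mem_singleton_iff.1 hu]; rfl)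
      refine ⟨fun hb => ?_, u, hu, by rw [hmn, hp]⟩
      rcases sub_mem hs hb with h | ⟨_, u, hu, h⟩ | ⟨h, _⟩
      · exact h1 h.1
      · rw [Set.mem_singleton_iff.1 hu] at h; simp at h
      · exact absurd h hg

theorem eq_of_mn : ∀ V : List (Lt A), (∀ c ∈ V, ∃ x, c = Lt.m x) →
    ∀ u : List A, mn V = u.map Sum.inl → V = u.map Lt.m := by
  intro V
  induction V with
  | nil =>
    intro _ u hu
    cases u with
    | nil => rfl
    | cons x u => cases hu
  | cons c V ih =>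
    intro hV u hu
    obtain ⟨x, rfl⟩ := hV c (by simp)
    have hu' : Sum.inl x :: mn V = u.map Sum.inl := hu
    cases u with
    | nil => cases hu'
    | cons z u =>
      rw [List.map_cons] at hu'
      injection hu' with h1 h2
      injection h1 with h1
      subst h1
      rw [List.map_cons, ← ih (fun c hc => hV c (List.mem_cons_of_mem _ hc)) u h2]

/-- A terminal word satisfying the invariant. -/
theorem inv_term {W : List (Lt A)} (hW : Inv G W) (ht : ∀ c ∈ W, ∃ x ∈ G.term, c = Lt.m x) :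
    ∃ u, Reach G u ∧ (∀ x ∈ u, x ∈ G.term) ∧ W = u.map Lt.m := by
  have hno : ∀ c ∈ W, ∃ x, c = Lt.m x := fun c hc => (ht c hc).imp fun _ h => h.2
  have hb : Lt.b ∉ W := fun h => by obtain ⟨_, h⟩ := hno _ h; cases h
  have hd : Lt.d ∉ W := fun h => by obtain ⟨_, h⟩ := hno _ h; cases h
  rcases hW with (h | ⟨x, _, h⟩ | ⟨x, _, h⟩ | h) | ⟨h', _, h1, _⟩ | ⟨h1, _, _⟩ | ⟨_, u, hu, hp⟩
  · obtain ⟨_, h⟩ := hno _ h; cases h
  · obtain ⟨_, h⟩ := hno _ h; cases h
  · obtain ⟨_, h⟩ := hno _ h; cases h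
  · exact absurd (h _ b_clk) hb
  · exact absurd (h1 _ b_clk (by simp)) hb
  · exact absurd (h1 _ d_clk (by simp)) hd
  · have hW := eq_of_mn W hno u hp
    refine ⟨u, hu, fun x hx => ?_, hW⟩
    obtain ⟨z, hz, hzx⟩ := ht (Lt.m x) (by rw [hW]; exact List.mem_map_of_mem hx)
    injection hzx with hzx
    exact hzx ▸ hz

end Pool.Agent.Y581.ET
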