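import Pool.Agent.Y581.ET.Basic

/-! # The letters and tables of the simulating 2-restricted system -/

set_option autoImplicit false

namespace Pool.Agent.Y581.ET

open Relation

/-- The letters of the simulating system: main letters `m x`, primed letters `p x`, test letters
`e x`, `q x`, the clock letters `a h` (one for each table), `b`, `d`, and the dead letter `F`. -/
inductive Lt (A : Type) : Type
  | m (x : A)
  | p (x : A)
  | e (x : A)
  | q (x : A)
  | a (h : A → Set (List A))
  | b
  | d
  | F

variable {A : Type}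

open Classical in
/-- The table rewriting `y` by `α` and `g` by `F`. -/
noncomputable def tab (y : Lt A) (α : Set (List (Lt A))) (g : Lt A) : Lt A → Set (List (Lt A)) :=
  fun c => if c = g then {[Lt.F]} else if c = y then α else {[c]}

theorem tab_g (y : Lt A) (α : Set (List (Lt A))) (g : Lt A) : tab y α g g = {[Lt.F]} := by
  simp [tab]

theorem tab_y {y : Lt A} (α : Set (List (Lt A))) {g : Lt A} (h : y ≠ g) : tab y α g y = α := by
  simp [tab, h]

theorem tab_o {y : Lt A} (α : Set (List (Lt A))) {g c : Lt A} (h : c ≠ y) (h' : c ≠ g) :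
    tab y α g c = {[c]} := by
  simp [tab, h, h']

theorem tab_ncard (S : Finset (Lt A)) (y : Lt A) (α : Set (List (Lt A))) (g : Lt A) :
    {c : Lt A | c ∈ S ∧ tab y α g c ≠ {[c]}}.ncard ≤ 2 := by
  have hfin : ({y, g} : Set (Lt A)).Finite := (Set.finite_singleton g).insert y
  refine le_trans (Set.ncard_le_ncard (t := {y, g}) ?_ hfin)
    (le_trans (Set.ncard_insert_le y {g}) (by rw [Set.ncard_singleton]))
  rintro c ⟨_, hc⟩
  by_contra hcon
  simp only [Set.mem_insert_iff, Set.mem_singleton_iff, not_or] at hcon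
  exact hc (tab_o α hcon.1 hcon.2)

section facts

variable {y g : Lt A} {α : Set (List (Lt A))} {W W' : List (Lt A)}

theorem sub_F (hs : Subst (tab y α g) W W') (hg : g ∈ W) : Lt.F ∈ W' := by
  induction hs with
  | nil => simp at hg
  | @cons c x u v hu _ ih =>
    rcases List.mem_cons.1 hg with rfl | hg
    · rw [tab_g, Set.mem_singleton_iff] at hu
      subst hu
      simp
    · exact List.mem_append_right _ (ih hg)

theorem sub_keep (hs : Subst (tab y α g) W W') {z : Lt A} (hz : z ∈ W) (h1 : z ≠ y)
    (h2 : z ≠ g) : z ∈ W' := by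
  induction hs with
  | nil => simp at hz
  | @cons c x u v hu _ ih =>
    rcases List.mem_cons.1 hz with rfl | hz
    · rw [tab_o _ h1 h2, Set.mem_singleton_iff] at hu
      subst hu
      simp
    · exact List.mem_append_right _ (ih hz)

theorem sub_y (hs : Subst (tab y α g) W W') (hy : y ∈ W) (h1 : y ≠ g) :
    ∃ u ∈ α, ∀ z ∈ u, z ∈ W' := by
  induction hs with
  | nil => simp at hy
  | @cons c x u v hu _ ih =>
    rcases List.mem_cons.1 hy with rfl | hy
    · rw [tab_y _ h1] at hu
      exact ⟨u, hu, fun z hz => List.mem_append_left _ hz⟩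
    · obtain ⟨u', hu', h'⟩ := ih hy
      exact ⟨u', hu', fun z hz => List.mem_append_right _ (h' z hz)⟩

theorem sub_mem (hs : Subst (tab y α g) W W') {z : Lt A} (hz : z ∈ W') :
    (z ∈ W ∧ z ≠ y ∧ z ≠ g) ∨ (y ∈ W ∧ ∃ u ∈ α, z ∈ u) ∨ (g ∈ W ∧ z = Lt.F) := by
  induction hs with
  | nil => simp at hz
  | @cons c x u v hu _ ih =>
    rcases List.mem_append.1 hz with hz | hz
    · by_cases hg : c = g
      · subst hg
        rw [tab_g, Set.mem_singleton_iff] at hu
        subst hu
        right; right
        simpa using hz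
      · by_cases hy : c = y
        · subst hy
          rw [tab_y _ hg] at hu
          exact Or.inr (Or.inl ⟨by simp, u, hu, hz⟩)
        · rw [tab_o _ hy hg, Set.mem_singleton_iff] at hu
          subst hu
          have : z = c := by simpa using hz
          subst this
          exact Or.inl ⟨by simp, hy, hg⟩
    · rcases ih hz with h | h | h
      · exact Or.inl ⟨List.mem_cons_of_mem _ h.1, h.2⟩
      · exact Or.inr (Or.inl ⟨List.mem_cons_of_mem _ h.1, h.2⟩)
      · exact Or.inr (Or.inr ⟨List.mem_cons_of_mem _ h.1, h.2⟩)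

theorem sub_id (hs : Subst (tab y α g) W W') (hy : y ∉ W) (hg : g ∉ W) : W' = W := by
  induction hs with
  | nil => rfl
  | @cons c x u v hu _ ih =>
    have h1 : c ≠ y := fun h => hy (by simp [h])
    have h2 : c ≠ g := fun h => hg (by simp [h])
    rw [tab_o _ h1 h2, Set.mem_singleton_iff] at hu
    subst hu
    rw [ih (fun h => hy (List.mem_cons_of_mem _ h)) (fun h => hg (List.mem_cons_of_mem _ h))]
    rfl

theorem exists_sub (y : Lt A) {α : Set (List (Lt A))} {g : Lt A} (hα : α.Nonempty) :
    ∀ W : List (Lt A), ∃ W', Subst (tab y α g) W W'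
  | [] => ⟨[], Subst.nil⟩
  | c :: W => by
    obtain ⟨W', hW⟩ := exists_sub y hα W
    obtain ⟨u, hu⟩ : (tab y α g c).Nonempty := by
      by_cases hg : c = g
      · subst hg; rw [tab_g]; exact ⟨_, rfl⟩
      · by_cases hy : c = y
        · subst hy; rw [tab_y _ hg]; exact hα
        · rw [tab_o _ hy hg]; exact ⟨_, rfl⟩
    exact ⟨u ++ W', Subst.cons hu hW⟩

end facts

/-! ## main projection -/

/-- The main letter shown by a letter. -/
def pr : Lt A → Option (A ⊕ A)
  | .m x => some (.inl x)
  | .p x => some (.inr x)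
  | _ => none

/-- The main projection of a word. -/
def mn (W : List (Lt A)) : List (A ⊕ A) := W.filterMap pr

theorem mn_append (U V : List (Lt A)) : mn (U ++ V) = mn U ++ mn V := by
  simp [mn]

theorem mn_m {W : List (Lt A)} {x : A} : Sum.inl x ∈ mn W ↔ Lt.m x ∈ W := by
  rw [mn, List.mem_filterMap]
  constructor
  · rintro ⟨c, hc, h⟩
    cases c <;> simp [pr] at h
    subst h; exact hc
  · intro h
    exact ⟨_, h, rfl⟩

theorem mn_p {W : List (Lt A)} {x : A} : Sum.inr x ∈ mn W ↔ Lt.p x ∈ W := by
  rw [mn, List.mem_filterMap]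
  constructor
  · rintro ⟨c, hc, h⟩
    cases c <;> simp [pr] at h
    subst h; exact hc
  · intro h
    exact ⟨_, h, rfl⟩

theorem mn_nil_of {W : List (Lt A)} (h : ∀ c ∈ W, pr c = none) : mn W = [] := by
  rw [mn, List.filterMap_eq_nil_iff]
  exact h

theorem mn_map_m (u : List A) : mn (u.map Lt.m) = u.map Sum.inl := by
  induction u with
  | nil => rfl
  | cons x u ih => rw [List.map_cons, List.map_cons, ← ih]; rfl

theorem mn_map_p (u : List A) : mn (u.map Lt.p) = u.map Sum.inr := by
  induction u with
  | nil => rfl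
  | cons x u ih => rw [List.map_cons, List.map_cons, ← ih]; rfl

theorem sub_mn {y g : Lt A} {α : Set (List (Lt A))} {W W' : List (Lt A)}
    (hs : Subst (tab y α g) W W') (hg : g ∉ W) (hy : pr y = none)
    (hα : ∀ u ∈ α, mn u = []) : mn W' = mn W := by
  induction hs with
  | nil => rfl
  | @cons c x u v hu _ ih =>
    have h2 : c ≠ g := fun h => hg (by simp [h])
    rw [mn_append, ih (fun h => hg (List.mem_cons_of_mem _ h))]
    by_cases h1 : c = y
    · subst h1
      rw [tab_y _ h2] at hu
      rw [hα u hu]
      simp [mn, hy]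
    · rw [tab_o _ h1 h2, Set.mem_singleton_iff] at hu
      subst hu
      rw [← mn_append]
      rfl

/-- The effect of the table `T h x` on the main projection. -/
inductive TStep (h : A → Set (List A)) (x : A) : List (A ⊕ A) → List (A ⊕ A) → Prop
  | nil : TStep h x [] []
  | hit {u : List A} {v v' : List (A ⊕ A)} : u ∈ h x → TStep h x v v' →
      TStep h x (Sum.inl x :: v) (u.map Sum.inr ++ v')
  | skip {c : A ⊕ A} {v v' : List (A ⊕ A)} : c ≠ Sum.inl x → TStep h x v v' →
      TStep h x (c :: v) (c :: v')

/-- The words by which `m x` is replaced in `T h x`. -/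
def Tim (h : A → Set (List A)) (x : A) (bar : List (Lt A)) : Set (List (Lt A)) :=
  {w | ∃ u ∈ h x, w = u.map Lt.p ++ bar}

theorem sub_mn_T {h : A → Set (List A)} {x : A} {bar : List (Lt A)} (hb : mn bar = [])
    {W W' : List (Lt A)} (hs : Subst (tab (Lt.m x) (Tim h x bar) (Lt.e x)) W W')
    (hg : Lt.e x ∉ W) : TStep h x (mn W) (mn W') := by
  induction hs with
  | nil => exact TStep.nil
  | @cons c w u v hu _ ih =>
    have h2 : c ≠ Lt.e x := fun h => hg (by simp [h])
    have ih := ih (fun h => hg (List.mem_cons_of_mem _ h))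
    rw [mn_append]
    by_cases h1 : c = Lt.m x
    · subst h1
      rw [tab_y _ h2] at hu
      obtain ⟨u', hu', rfl⟩ := hu
      rw [mn_append, hb, mn_map_p, List.append_nil]
      exact TStep.hit hu' ih
    · rw [tab_o _ h1 h2, Set.mem_singleton_iff] at hu
      subst hu
      cases c with
      | m z =>
        have hz : z ≠ x := fun h => h1 (by rw [h])
        exact TStep.skip (c := Sum.inl z) (by simpa using hz) ih
      | p z => exact TStep.skip (c := Sum.inr z) (by simp) ih
      | _ => exact ih

theorem lift_T {h : A → Set (List A)} {x : A} {bar : List (Lt A)} (hb : mn bar = []) :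
    ∀ {W : List (Lt A)} {v' : List (A ⊕ A)}, Lt.e x ∉ W → TStep h x (mn W) v' →
    ∃ W', Subst (tab (Lt.m x) (Tim h x bar) (Lt.e x)) W W' ∧ mn W' = v'
  | [], v', _, ht => by
    cases ht
    exact ⟨[], Subst.nil, rfl⟩
  | c :: W, v', hg, ht => by
    have h2 : c ≠ Lt.e x := fun h => hg (by simp [h])
    have hg' : Lt.e x ∉ W := fun h => hg (List.mem_cons_of_mem _ h)
    by_cases h1 : c = Lt.m x
    · subst h1
      have ht' : TStep h x (Sum.inl x :: mn W) v' := ht
      cases ht' with
      | @hit u _ v'' hu ht'' =>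
        obtain ⟨W', hW', hm⟩ := lift_T hb hg' ht''
        refine ⟨(u.map Lt.p ++ bar) ++ W', Subst.cons ?_ hW', ?_⟩
        · rw [tab_y _ h2]; exact ⟨u, hu, rfl⟩
        · rw [mn_append, mn_append, hb, mn_map_p, hm, List.append_nil]
      | skip hne _ => exact absurd rfl hne
    · have hstep : ∀ v'', TStep h x (mn W) v'' → mn [c] ++ v'' = v' →
          ∃ W', Subst (tab (Lt.m x) (Tim h x bar) (Lt.e x)) (c :: W) W' ∧ mn W' = v' := by
        intro v'' ht'' hv
        obtain ⟨W', hW', hm⟩ := lift_T hb hg' ht''
        refine ⟨[c] ++ W', Subst.cons ?_ hW', ?_⟩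
        · rw [tab_o _ h1 h2]; rfl
        · rw [mn_append, hm, hv]
      cases c with
      | m z =>
        have hz : z ≠ x := fun h => h1 (by rw [h])
        have ht' : TStep h x (Sum.inl z :: mn W) v' := ht
        cases ht' with
        | hit _ _ => exact absurd rfl hz
        | skip _ ht'' => exact hstep _ ht'' rfl
      | p z =>
        have ht' : TStep h x (Sum.inr z :: mn W) v' := ht
        cases ht' with
        | skip _ ht'' => exact hstep _ ht'' rfl
      | _ => exact hstep _ ht rfl

open Classical in
theorem sub_mn_R {x : A} {bar : List (Lt A)} (hb : mn bar = [])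
    {W W' : List (Lt A)} (hs : Subst (tab (Lt.p x) {Lt.m x :: bar} (Lt.q x)) W W')
    (hg : Lt.q x ∉ W) :
    mn W' = (mn W).map (fun c => if c = Sum.inr x then Sum.inl x else c) := by
  induction hs with
  | nil => rfl
  | @cons c w u v hu _ ih =>
    have h2 : c ≠ Lt.q x := fun h => hg (by simp [h])
    have ih := ih (fun h => hg (List.mem_cons_of_mem _ h))
    rw [mn_append, ih]
    by_cases h1 : c = Lt.p x
    · subst h1
      rw [tab_y _ h2, Set.mem_singleton_iff] at hu
      subst hu
      have : mn (Lt.m x :: bar) = [Sum.inl x] := by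
        have : mn (Lt.m x :: bar) = Sum.inl x :: mn bar := rfl
        rw [this, hb]
      rw [this]
      have : mn (Lt.p x :: w) = Sum.inr x :: mn w := rfl
      rw [this, List.map_cons, if_pos rfl]
      rfl
    · rw [tab_o _ h1 h2, Set.mem_singleton_iff] at hu
      subst hu
      cases c with
      | m z =>
        have : mn (Lt.m z :: w) = Sum.inl z :: mn w := rfl
        rw [this, List.map_cons, if_neg (by simp)]
        rfl
      | p z =>
        have hz : z ≠ x := fun h => h1 (by rw [h])
        have : mn (Lt.p z :: w) = Sum.inr z :: mn w := rfl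
        rw [this, List.map_cons, if_neg (by simpa using hz)]
        rfl
      | _ => rfl

/-! ## partially rewritten words -/

/-- `v` arises from `u` by leaving some letters alone and rewriting the others by `h` (the results
are marked by `inr`). -/
inductive PA (h : A → Set (List A)) : List A → List (A ⊕ A) → Prop
  | nil : PA h [] []
  | stay {c : A} {u : List A} {v : List (A ⊕ A)} : PA h u v → PA h (c :: u) (Sum.inl c :: v)
  | done {c : A} {w u : List A} {v : List (A ⊕ A)} : w ∈ h c → PA h u v →
      PA h (c :: u) (w.map Sum.inr ++ v)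

theorem TStep.pre {h : A → Set (List A)} {x : A} : ∀ {w : List A} {v v' : List (A ⊕ A)},
    TStep h x (w.map Sum.inr ++ v) v' → ∃ v'', v' = w.map Sum.inr ++ v'' ∧ TStep h x v v''
  | [], v, v', ht => ⟨v', rfl, ht⟩
  | c :: w, v, v', ht => by
    have ht' : TStep h x (Sum.inr c :: (w.map Sum.inr ++ v)) v' := ht
    cases ht' with
    | skip _ ht'' =>
      obtain ⟨v'', rfl, h'⟩ := TStep.pre ht''
      exact ⟨v'', rfl, h'⟩

theorem TStep.pre' {h : A → Set (List A)} {x : A} : ∀ (w : List A) {v v' : List (A ⊕ A)},
    TStep h x v v' → TStep h x (w.map Sum.inr ++ v) (w.map Sum.inr ++ v')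
  | [], _, _, ht => ht
  | _ :: w, _, _, ht => TStep.skip (by simp) (TStep.pre' w ht)

theorem PA.T {h : A → Set (List A)} {x : A} {u : List A} {v : List (A ⊕ A)} (hp : PA h u v) :
    ∀ {v' : List (A ⊕ A)}, TStep h x v v' → PA h u v' := by
  induction hp with
  | nil => intro v' ht; cases ht; exact PA.nil
  | stay _ ih =>
    intro v' ht
    cases ht with
    | hit hu ht' => exact PA.done hu (ih ht')
    | skip _ ht' => exact PA.stay (ih ht')
  | done hw _ ih =>
    intro v' ht
    obtain ⟨v'', rfl, ht'⟩ := TStep.pre ht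
    exact PA.done hw (ih ht')

theorem PA.init (h : A → Set (List A)) : ∀ u : List A, PA h u (u.map Sum.inl)
  | [] => PA.nil
  | _ :: u => PA.stay (PA.init h u)

theorem PA.exit {h : A → Set (List A)} {u : List A} {v : List (A ⊕ A)} (hp : PA h u v) :
    (∀ x, Sum.inl x ∉ v) → ∃ u', Subst h u u' ∧ v = u'.map Sum.inr := by
  induction hp with
  | nil => intro _; exact ⟨[], Subst.nil, rfl⟩
  | @stay c _ _ _ _ => intro h'; exact absurd (by simp) (h' c)
  | @done c w u v hw _ ih =>
    intro h'
    obtain ⟨u', hu', rfl⟩ := ih fun x hx => h' x (List.mem_append_right _ hx)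
    exact ⟨w ++ u', Subst.cons hw hu', by rw [List.map_append]⟩

theorem PA.mem {h : A → Set (List A)} {u : List A} {v : List (A ⊕ A)} (hp : PA h u v) {x : A}
    (hx : Sum.inl x ∈ v) : x ∈ u := by
  induction hp with
  | nil => simp at hx
  | stay _ ih =>
    rcases List.mem_cons.1 hx with hx | hx
    · cases hx; simp
    · exact List.mem_cons_of_mem _ (ih hx)
  | done _ _ ih =>
    rcases List.mem_append.1 hx with hx | hx
    · simp at hx
    · exact List.mem_cons_of_mem _ (ih hx)

end Pool.Agent.Y581.ET
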